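import Pool.Agent.Lib.MP_8dbd20_lc.S8.Spec

/-!
# MP_8dbd20_lc, section 8: there is no chain (`S_Chn`)
-/

namespace B8d

open Pool.Agent.Lib.Z2 (NN NT IsI Gen gen inn Node Cond)

namespace S8_Chn

theorem as_B : AS (fun _ V => {x | x ∈ V 0 ∧ ∃ m, sec (V 1) x = sec (sec (V 2) (m + 1)) 1}) := by
  aesop (config := { enableSimp := false })

theorem gp_cons (G : Cond → Prop) (a : ℕ) (s : Node) : gp G (a :: s) = gen G s := by
  ext k
  simp [gp]

theorem sec_D (G : Cond → Prop) (T : Set ℕ) (s : Node) (hs : inn T s) :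
    sec {x | ∃ (s : Node) (k : ℕ), inn T s ∧ k ∈ gen G s ∧ x = Nat.pair (Encodable.encode s) k}
      (Encodable.encode s) = gen G s := by
  ext k
  constructor
  · rintro ⟨s', k', h1, h2, h3⟩
    rw [Nat.pair_eq_pair] at h3
    have := Encodable.encode_injective h3.1
    subst this
    rw [h3.2]
    exact h2
  · intro hk
    exact ⟨s, k, hs, hk, rfl⟩

theorem inn_B (T D Z : Set ℕ) (s : Node) :
    inn {x | x ∈ T ∧ ∃ m, sec D x = sec (sec Z (m + 1)) 1} s ↔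
      inn T s ∧ ∃ m, sec D (Encodable.encode s) = sec (sec Z (m + 1)) 1 := Iff.rfl

end S8_Chn

open S8_Chn in
theorem tChn : S_Chn := by
  rintro M U C G h ⟨Z, hZ, hch⟩
  obtain ⟨T, hT, hZT⟩ := h.sup Z hZ
  have hcrt : ∀ m, Crt C (sec (sec Z (m + 1)) 0) (sec (sec Z (m + 1)) 1) := by
    intro m
    obtain ⟨⟨h1, h2⟩, -⟩ := hch m
    refine ⟨h1, fun c hc => ?_⟩
    obtain ⟨W, hW, hH, i, hi, rfl⟩ := (h.entC c).1 hc
    exact h2 W hW hH i hi
  have hs : ∀ m, ∃ s, inn T s ∧ sec (sec Z (m + 1)) 1 = gen G s ∧ sec (sec Z (m + 1)) 0 = gp G s := by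
    intro m
    have h1 := h.supS T hT Z hZT (m + 1)
    exact h.unq T hT _ (h.supS T hT _ h1 0) _ (h.supS T hT _ h1 1) (hcrt m)
  choose s hsT hsz hsy using hs
  have hstep : ∀ m, ∃ a, s (m + 1) = a :: s m := by
    intro m
    obtain ⟨-, h2⟩ := hch (m + 1)
    have hy : sec (sec Z (m + 1 + 1)) 0 = sec (sec Z (m + 1)) 1 := by
      rcases h2 with h2 | h2 | ⟨hH, i, hi, hv⟩
      · exact h2
      · exact absurd h2 (hcrt m).1
      · exfalso
        have hW : sec (sec Z (m + 1 + 1)) 2 ∈ NN (SU U C) G :=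
          h.supN T hT _ (h.supS T hT _ (h.supS T hT Z hZT (m + 1 + 1)) 2)
        exact (hch m).1.2 _ hW hH i hi hv
    rw [hsz m, hsy (m + 1)] at hy
    have hinf := (hcrt m).1
    rw [hsz m] at hinf
    obtain ⟨k, hk⟩ := hinf.nonempty
    rw [← hy] at hk
    rcases hsm : s (m + 1) with _ | ⟨a, t⟩
    · rw [hsm] at hk
      exact absurd rfl hk.1
    · rw [hsm, gp_cons] at hy
      exact ⟨a, by rw [h.inj _ _ hy]⟩
  have hD := h.genU T hT
  set D : Set ℕ := {x | ∃ (s : Node) (k : ℕ), inn T s ∧ k ∈ gen G s ∧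
    x = Nat.pair (Encodable.encode s) k} with hDdef
  have hB : {x | x ∈ T ∧ ∃ m, sec D x = sec (sec Z (m + 1)) 1} ∈ NN (SU U C) G := by
    refine as_B.closed h.arc (fun _ => 0) (sc T (sc D fun _ => Z)) ?_
    intro i
    rcases i with _ | _ | i
    · exact h.sub hT.1
    · exact hD
    · exact hZ
  have hmem : ∀ m, inn {x | x ∈ T ∧ ∃ m, sec D x = sec (sec Z (m + 1)) 1} (s m) := by
    intro m
    rw [inn_B]
    refine ⟨hsT m, m, ?_⟩
    rw [hDdef, sec_D G T (s m) (hsT m), hsz m]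
  obtain ⟨t, ht, hno⟩ := h.noBr T hT _ hB (fun t ht => ht.1) ⟨s 0, hmem 0⟩
  rw [inn_B] at ht
  obtain ⟨htT, m, hm⟩ := ht
  rw [hDdef, sec_D G T t htT, hsz m] at hm
  have htm := h.inj _ _ hm
  obtain ⟨a, ha⟩ := hstep m
  refine hno a ?_
  rw [htm, ← ha]
  exact hmem (m + 1)

end B8d
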