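import Pool.Agent.Lib.MP_8dbd20_lc.S8.Spec

/-!
# MP_8dbd20_lc, section 8: the facts on the generic model (`S_GenM`)
-/

namespace B8d

open Pool.Agent.Lib.Z2 (NN NT IsI Gen gen inn Node Cond)

namespace S8_GenM

theorem mod2_arc {K : Set (Set ℕ)} (h : Mod2 K) : ArClosed K := by
  rintro R ⟨φ, ha, hφ⟩ v V hV
  have h1 := h.2 φ v V hV
  have e : {n | R (nc n v) V} = {n | eval K ∅ φ (nc n v) V} := by
    ext n
    exact (hφ _ _).trans (eval_arith ha _ _ _ _ _ _)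
  rw [e]
  exact h1

end S8_GenM

theorem tGenM (h1 : S_UniG) (h2 : S_Br8) (h3 : S_PreD) (h4 : S_LemEC) (h5 : S_GenU) (h6 : S_Unq)
    (h7 : Pool.Agent.Lib.Z2.S_Z2) (h8 : Pool.Agent.Lib.Z2.S_Nms) (h9 : Pool.Agent.Lib.Z2.S_NoL)
    (h10 : Pool.Agent.Lib.Z2.S_NTs) (h11 : Pool.Agent.Lib.Z2.S_GenR)
    (h12 : Pool.Agent.Lib.Z2.S_IFin) (h13 : Pool.Agent.Lib.Z2.S_PresT) : S_GenM := by
  intro M U C hU hcnt G hG
  haveI := hU.good
  have hUni := h1 M U C hU hcnt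
  obtain ⟨n1, n2, n3, -, n5⟩ := h8 (SU U C) Gam hUni G hG
  obtain ⟨T0, hT0, -, -⟩ := h12 (SU U C) []
  have hsub : U ⊆ NN (SU U C) G := fun X hX => n1 T0 hT0 X (n3 T0 X hX)
  have hne : (NN (SU U C) G).Nonempty :=
    ⟨∅, hsub (Pool.Agent.Lib.Z2.Good.ue (SU U C))⟩
  have hmod : Mod2 (NN (SU U C) G) := ((h2 _ hne).1).1 (h7 (SU U C) Gam hUni G hG)
  have hpres := h3 M U C hU hcnt G hG
  have hnol : ¬ ∃ L ∈ NN (SU U C) G, ∀ c ∈ C, ∃ n, c = sec L n := by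
    rintro ⟨L, hL, h⟩
    obtain ⟨c, hc, hc'⟩ := h9 (SU U C) Gam hUni G hG L hL
    obtain ⟨n, hn⟩ := h c hc
    exact hc' n hn.symm
  obtain ⟨u1, u2, u3⟩ := h6 M U C hU hcnt G hG
  refine ⟨hU, hmod, S8_GenM.mod2_arc hmod, hsub, hpres, hnol, ?_, n2, ?_, n1, ?_, ?_, ?_, ?_, u1, u2,
    u3⟩
  · exact h4 M U C hU _ hsub hmod hpres hnol
  · intro X hX Y hY
    obtain ⟨T, hT, h⟩ := n5 2 (fun i => if i = 0 then X else Y) (by
      intro i
      by_cases hi : i = 0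
      · simp only [hi, if_true]
        exact hX
      · simp only [hi, if_false]
        exact hY)
    have h0 := h 0 (by omega)
    have h1' := h 1 (by omega)
    simp only [if_true] at h0
    simp only [one_ne_zero, if_false] at h1'
    exact ⟨T, hT, h0, h1'⟩
  · intro T hT X hX n
    exact (h10 (SU U C) Gam hUni G hG T hT).1 X hX n
  · intro s
    obtain ⟨T, hT, hs, -⟩ := h12 (SU U C) [s]
    exact n1 T hT _ (h11 (SU U C) Gam hUni G hG T hT s (hs s (by simp)))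
  · intro T hT
    exact n1 T hT _ (h5 (SU U C) Gam hUni G hG T hT)
  · intro T hT B hB hBT hne
    exact h13 (SU U C) Gam hUni G hG T hT B hB hBT hne

end B8d
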