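import Pool.Agent.Lib.MP_8dbd20_lc.S8.Spec

/-!
# MP_8dbd20_lc, section 8: the generic reals on a support, uniformly (`S_GenU`)
-/

namespace Pool.Agent.Lib.Z2.S8_GenU

open Pool.Agent.Lib.Z2

theorem main (h_Ic : S_Ic) (h_Cdc : S_Cdc) (S : Str) [Good S] (Gm : Set ℕ → Set ℕ) (hU : Uni S Gm)
    (G : Cond → Prop) (hG : Gen S Gm G) (T : Set ℕ) (hI : IsI S T) :
    {x | ∃ (s : Node) (k : ℕ), inn T s ∧ k ∈ gen G s ∧ x = Nat.pair (Encodable.encode s) k} ∈
      NT S G T := by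
  let Q : Node → Ty → ℕ → Prop := fun s t k => IsCond S (t, []) ∧
    (∀ s' ∈ t.1, ∃ u : List ℕ, u ++ s' = s) ∧ (s, k) ∈ t.2.2
  let ρ : Set ℕ := {x | ∃ (s : Node) (t : Ty), Encodable.encode s = x.unpair.1.unpair.1.unpair.1 ∧
    Encodable.encode t = x.unpair.1.unpair.2 ∧ inn T s ∧ Q s t x.unpair.1.unpair.1.unpair.2 ∧
    x.unpair.2 ∈ cdc (t, [])}
  have hsec : ∀ n i (w : Cond), sec ρ (Nat.pair n i) = cdc w ↔ ∃ (s : Node) (t : Ty),
      Encodable.encode s = n.unpair.1 ∧ Encodable.encode t = i ∧ inn T s ∧ Q s t n.unpair.2 ∧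
      w = (t, []) := by
    intro n i w
    have key : ∀ (s : Node) (t : Ty), Encodable.encode s = n.unpair.1 → Encodable.encode t = i →
        inn T s → Q s t n.unpair.2 → sec ρ (Nat.pair n i) = cdc (t, []) := by
      intro s t h0 h1 h2 h3
      ext z
      constructor
      · rintro ⟨s', t', h0', h1', h2', h3', h4'⟩
        simp only [Nat.unpair_pair] at h0' h1' h2' h3' h4'
        have : t' = t := Encodable.encode_injective (h1'.trans h1.symm)
        rw [this] at h4'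
        exact h4'
      · intro hz
        refine ⟨s, t, ?_, ?_, h2, ?_, ?_⟩
        · simp only [Nat.unpair_pair]; exact h0
        · simp only [Nat.unpair_pair]; exact h1
        · simp only [Nat.unpair_pair]; exact h3
        · simp only [Nat.unpair_pair]; exact hz
    constructor
    · intro h
      obtain ⟨y, hy⟩ : ∃ y, y ∈ cdc w := Set.nonempty_iff_ne_empty.2 (h_Cdc.2.1 w)
      rw [← h] at hy
      obtain ⟨s, t, h0, h1, h2, h3, h4⟩ := hy
      simp only [Nat.unpair_pair] at h0 h1 h2 h3 h4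
      refine ⟨s, t, h0, h1, h2, h3, ?_⟩
      apply h_Cdc.1
      rw [← h]
      exact key s t h0 h1 h2 h3
    · rintro ⟨s, t, h0, h1, h2, h3, rfl⟩
      exact key s t h0 h1 h2 h3
  have hEnt : ∀ n w, Ent S ρ n w ↔ ∃ (s : Node) (t : Ty), Encodable.encode s = n.unpair.1 ∧
      inn T s ∧ Q s t n.unpair.2 ∧ w = (t, []) := by
    intro n w
    constructor
    · rintro ⟨hw, i, hi⟩
      obtain ⟨s, t, h0, -, h2, h3, h4⟩ := (hsec n i w).1 hi
      exact ⟨s, t, h0, h2, h3, h4⟩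
    · rintro ⟨s, t, h0, h2, h3, rfl⟩
      exact ⟨h3.1, Encodable.encode t, (hsec n _ _).2 ⟨s, t, h0, rfl, h2, h3, rfl⟩⟩
  have hρU : ρ ∈ S.U := by
    apply hU.comp
    have dx1 : DF S (fun x : (ℕ × Node) × Ty => x.1.1.unpair.1.unpair.2) :=
      DF.unp2 (DF.unp1 DF.id.fst.fst)
    have dx2 : DF S (fun x : (ℕ × Node) × Ty => x.1.1.unpair.1.unpair.1.unpair.1) :=
      DF.unp1 (DF.unp1 (DF.unp1 DF.id.fst.fst))
    have dx3 : DF S (fun x : (ℕ × Node) × Ty => x.1.1.unpair.1.unpair.1.unpair.2) :=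
      DF.unp2 (DF.unp1 (DF.unp1 DF.id.fst.fst))
    have dx4 : DF S (fun x : (ℕ × Node) × Ty => x.1.1.unpair.2) := DF.unp2 DF.id.fst.fst
    have ds : DF S (fun x : (ℕ × Node) × Ty => x.1.2) := DF.id.fst.snd
    have dc : DF S (fun x : (ℕ × Node) × Ty => ((x.2, []) : Cond)) := DF.id.snd.pair DF.nil
    have d1 : Dfn S (fun x : (ℕ × Node) × Ty => IsCond S (x.2, [])) := (h_Ic S _ _ dc).2.2.2.2
    have d2 : Dfn S (fun x : (ℕ × Node) × Ty => ∀ s' ∈ x.2.1, ∃ u : List ℕ, u ++ s' = x.1.2) := by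
      refine Dfn.allP (P := fun (x : (ℕ × Node) × Ty) (s' : Node) => ∃ u : List ℕ, u ++ s' = x.1.2)
        DF.id.snd.fst ?_
      refine Dfn.exN (P := fun (y : ((ℕ × Node) × Ty) × Node) (u : List ℕ) => u ++ y.2 = y.1.1.2) ?_
      refine Dfn.eq ?_ DF.id.fst.fst.fst.snd
      exact DF.prim₂ (F := fun (u v : List ℕ) => u ++ v) Primrec.list_append DF.id.snd DF.id.fst.snd
    have d3 : Dfn S (fun x : (ℕ × Node) × Ty => (x.1.2, x.1.1.unpair.1.unpair.1.unpair.2) ∈ x.2.2.2) :=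
      Dfn.pmem (f := fun x : (ℕ × Node) × Ty => (x.1.2, x.1.1.unpair.1.unpair.1.unpair.2))
        (ds.pair dx3) DF.id.snd.snd.snd
    have d4 : Dfn S (fun x : (ℕ × Node) × Ty => x.1.1.unpair.2 ∈ cdc (x.2, [])) :=
      Dfn.mem dx4 ((h_Cdc.2.2 S).2.2 _ _ dc)
    have d5 : Dfn S (fun x : (ℕ × Node) × Ty => inn T x.1.2) :=
      Dfn.mem (DF.enc ds) (DF.constR (by rw [hU.pm]; exact hI.1))
    refine Dfn.exN (P := fun (x : ℕ) (s : Node) => ∃ t : Ty,
      Encodable.encode s = x.unpair.1.unpair.1.unpair.1 ∧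
      Encodable.encode t = x.unpair.1.unpair.2 ∧ inn T s ∧ Q s t x.unpair.1.unpair.1.unpair.2 ∧
      x.unpair.2 ∈ cdc (t, [])) ?_
    refine Dfn.exN (P := fun (y : ℕ × Node) (t : Ty) =>
      Encodable.encode y.2 = y.1.unpair.1.unpair.1.unpair.1 ∧
      Encodable.encode t = y.1.unpair.1.unpair.2 ∧ inn T y.2 ∧
      Q y.2 t y.1.unpair.1.unpair.1.unpair.2 ∧ y.1.unpair.2 ∈ cdc (t, [])) ?_
    exact (Dfn.eq (DF.enc ds) dx2).and ((Dfn.eq (DF.enc DF.id.snd) dx1).and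
      (d5.and ((d1.and (d2.and d3)).and d4)))
  have hsuf : ∀ (u : List ℕ) (v : Node), inn T (u ++ v) → inn T v := by
    intro u v
    induction u with
    | nil => intro h; exact h
    | cons x u ih => intro h; exact ih (hI.2.2.1 _ h)
  refine ⟨ρ, hρU, ?_, ?_⟩
  · intro n w hw s' hs'
    obtain ⟨s, t, -, h2, h3, rfl⟩ := (hEnt n w).1 hw
    obtain ⟨u, hu⟩ := h3.2.1 s' hs'
    rw [← hu] at h2
    exact hsuf _ _ h2
  · ext x
    constructor
    · rintro ⟨s, k, hs, ⟨p, hp, hk⟩, rfl⟩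
      classical
      have hpc := hG.cond p hp
      let t : Ty := ((nds p).filter (fun s' => s' ∈ s.tails), ht p,
        (bts p).filter (fun x => x.1 ∈ s.tails))
      have ht1 : ∀ s', s' ∈ nds ((t, []) : Cond) ↔ s' ∈ nds p ∧ s' ∈ s.tails := by
        intro s'
        show s' ∈ (nds p).filter (fun s' => s' ∈ s.tails) ↔ _
        rw [List.mem_filter]; simp
      have ht2 : ∀ x, x ∈ bts ((t, []) : Cond) ↔ x ∈ bts p ∧ x.1 ∈ s.tails := by
        intro x
        show x ∈ (bts p).filter (fun x => x.1 ∈ s.tails) ↔ _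
        rw [List.mem_filter]; simp
      have hself : s ∈ s.tails := (List.mem_tails _ _).2 (List.suffix_refl s)
      have hc : IsCond S (t, []) := by
        refine ⟨?_, ?_, fun c hc => absurd hc (by simp [fs])⟩
        · intro s' hs'
          rw [ht1] at hs' ⊢
          refine ⟨hpc.1 _ hs'.1, (List.mem_tails _ _).2 ?_⟩
          exact (List.tail_suffix _).trans ((List.mem_tails _ _).1 hs'.2)
        · intro x hx
          rw [ht2] at hx
          exact ⟨(ht1 _).2 ⟨(hpc.2.1 x hx.1).1, hx.2⟩, (hpc.2.1 x hx.1).2⟩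
      refine ⟨(t, []), (hEnt _ _).2 ⟨s, t, ?_, hs, ?_, rfl⟩, ?_⟩
      · simp only [Nat.unpair_pair]
      · simp only [Nat.unpair_pair]
        refine ⟨hc, ?_, ?_⟩
        · intro s' hs'
          exact (List.mem_tails _ _).1 ((ht1 s').1 hs').2
        · exact (ht2 (s, k)).2 ⟨hk, hself⟩
      · refine hG.up _ _ hp hc ⟨fun s' hs' => ((ht1 s').1 hs').1, le_refl _, ?_,
          fun c hc => absurd hc (by simp [fs]), fun s' _ k _ _ c hc => absurd hc (by simp [fs])⟩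
        intro s' hs' k' _
        rw [ht2]
        exact ⟨fun h => ⟨h, ((ht1 s').1 hs').2⟩, fun h => h.1⟩
    · rintro ⟨p, hp, hpG⟩
      obtain ⟨s, t, h0, h2, h3, rfl⟩ := (hEnt x p).1 hp
      refine ⟨s, x.unpair.2, h2, ⟨_, hpG, h3.2.2⟩, ?_⟩
      rw [h0, Nat.pair_unpair]

end Pool.Agent.Lib.Z2.S8_GenU

namespace B8d

theorem tGenU (h1 : Pool.Agent.Lib.Z2.S_Ic) (h2 : Pool.Agent.Lib.Z2.S_Cdc) : S_GenU :=
  fun S _ Gm hU G hG T hI => Pool.Agent.Lib.Z2.S8_GenU.main h1 h2 S Gm hU G hG T hI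

end B8d
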