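import Pool.Agent.Lib.MP_8dbd20_lc.S8.Spec

/-!
# MP_8dbd20_lc, section 8: a branch gives a descending sequence
-/

namespace B8d

theorem tKBb (h1 : S_Sq) : S_KBb := by
  intro T g hg
  obtain ⟨s1, s2, s3⟩ := h1
  have hTd : ∀ k, cd k g ∈ Td T := by
    intro k
    refine ⟨?_, ?_⟩
    · rw [s1]
      exact s3 k _ _ fun i hi => (s2 k g i hi).symm
    · intro m hm
      rw [s1] at hm
      have e : cd m (ent (cd k g)) = cd m g :=
        s3 m _ _ fun i hi => s2 k g i (lt_of_lt_of_le hi hm)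
      rw [e]
      exact hg m
  refine ⟨{x | x.unpair.2 = cd x.unpair.1 g}, ?_, ?_⟩
  · intro k
    refine ⟨cd k g, ?_⟩
    change (Nat.pair k (cd k g)).unpair.2 = cd (Nat.pair k (cd k g)).unpair.1 g
    rw [Nat.unpair_pair]
  · intro k x y hx hy
    change (Nat.pair k x).unpair.2 = cd (Nat.pair k x).unpair.1 g at hx
    change (Nat.pair (k + 1) y).unpair.2 = cd (Nat.pair (k + 1) y).unpair.1 g at hy
    rw [Nat.unpair_pair] at hx hy
    dsimp only at hx hy
    subst hx hy
    refine ⟨?_, ?_⟩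
    · change (Nat.pair (cd (k + 1) g) (cd k g)).unpair.1 ∈ Td T ∧
        (Nat.pair (cd (k + 1) g) (cd k g)).unpair.2 ∈ Td T ∧
        kbl (Nat.pair (cd (k + 1) g) (cd k g)).unpair.1
          (Nat.pair (cd (k + 1) g) (cd k g)).unpair.2
      rw [Nat.unpair_pair]
      refine ⟨hTd _, hTd _, Or.inl ⟨?_, ?_⟩⟩
      · dsimp only
        rw [s1, s1]
        omega
      · intro i hi
        dsimp only at hi ⊢
        rw [s1] at hi
        rw [s2 _ _ _ hi, s2 _ _ _ (by omega)]
    · intro h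
      have h' := congrArg len h
      rw [s1, s1] at h'
      omega

end B8d
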