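import Pool.Agent.Lib.MP_8dbd20_lc.S8.Spec

/-!
# MP_8dbd20_lc, `S8/KBc`: a descending sequence gives a branch
-/

namespace B8d

namespace S8_KBc

theorem as : AS (fun _ V => {x | ∃ k₀, ∀ k, k₀ ≤ k →
    x.unpair.1 < (sInf {y | Nat.pair k y ∈ V 0}).unpair.1 ∧
      Nat.beta (sInf {y | Nat.pair k y ∈ V 0}).unpair.2 x.unpair.1 = x.unpair.2}) := by
  aesop (config := { enableSimp := false })

/-- eventually constant sequences -/
theorem ev_const (a : ℕ → ℕ) (k₀ : ℕ) (h : ∀ k, k₀ ≤ k → a (k + 1) ≤ a k) :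
    ∃ k₁, k₀ ≤ k₁ ∧ ∀ k, k₁ ≤ k → a k = a k₁ := by
  have hanti : ∀ k l, k₀ ≤ k → k ≤ l → a l ≤ a k := by
    intro k l hk hkl
    induction l, hkl using Nat.le_induction with
    | base => exact le_refl _
    | succ l hl ih => exact le_trans (h l (le_trans hk hl)) ih
  have hne : (Set.range fun k => a (k₀ + k)).Nonempty := ⟨_, ⟨0, rfl⟩⟩
  obtain ⟨k, hk⟩ := Nat.sInf_mem hne
  refine ⟨k₀ + k, Nat.le_add_right _ _, fun l hl => ?_⟩
  apply le_antisymm (hanti _ _ (Nat.le_add_right _ _) hl)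
  have hk' : a (k₀ + k) = sInf (Set.range fun k => a (k₀ + k)) := hk
  rw [hk']
  apply Nat.sInf_le
  exact ⟨l - k₀, by
    show a (k₀ + (l - k₀)) = a l
    congr 1
    omega⟩

end S8_KBc

theorem tKBc (h1 : S_Sq) : S_KBc := by
  obtain ⟨q1, q2, q3⟩ := h1
  intro T K hK f hf hD
  let s : ℕ → ℕ := fun k => sInf {y | Nat.pair k y ∈ f}
  have hs : ∀ k, Nat.pair k (s k) ∈ f := fun k => Nat.sInf_mem (s := {y | Nat.pair k y ∈ f}) (hD.1 k)
  have hlt : ∀ k, s (k + 1) ∈ Td T ∧ s k ∈ Td T ∧ kbl (s (k + 1)) (s k) ∧ s (k + 1) ≠ s k := by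
    intro k
    have h := hD.2 k (s k) (s (k + 1)) (hs k) (hs (k + 1))
    obtain ⟨h1, h2⟩ := h
    have h1' : (Nat.pair (s (k + 1)) (s k)).unpair.1 ∈ Td T ∧
        (Nat.pair (s (k + 1)) (s k)).unpair.2 ∈ Td T ∧
        kbl (Nat.pair (s (k + 1)) (s k)).unpair.1 (Nat.pair (s (k + 1)) (s k)).unpair.2 := h1
    rw [Nat.unpair_pair] at h1'
    exact ⟨h1'.1, h1'.2.1, h1'.2.2, h2⟩
  have hTd : ∀ k, s k ∈ Td T := fun k => (hlt k).2.1
  have claim : ∀ m, ∃ k₀, ∀ k, k₀ ≤ k → m ≤ len (s k) ∧ ∀ i < m, ent (s k) i = ent (s k₀) i := by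
    intro m
    induction m with
    | zero => exact ⟨0, fun k _ => ⟨Nat.zero_le _, fun i hi => absurd hi (Nat.not_lt_zero i)⟩⟩
    | succ m ih =>
      obtain ⟨k₀, hk₀⟩ := ih
      -- the length is eventually larger than `m`
      have hlen : ∃ k₁, k₀ ≤ k₁ ∧ ∀ k, k₁ ≤ k → m < len (s k) := by
        refine ⟨k₀ + 1, Nat.le_succ _, fun k hk => ?_⟩
        by_contra hcon
        obtain ⟨k, rfl⟩ : ∃ l, k = l + 1 := ⟨k - 1, by omega⟩
        have hk' : k₀ ≤ k := by omega
        have hm : len (s (k + 1)) = m := le_antisymm (not_lt.1 hcon) (hk₀ (k + 1) (by omega)).1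
        obtain ⟨-, -, hkb, hne⟩ := hlt k
        rcases hkb with ⟨a1, a2⟩ | ⟨i, a1, a2, a3, a4⟩
        · have hlk : len (s k) = m := le_antisymm (by omega) (hk₀ k hk').1
          apply hne
          have e1 := (hTd (k + 1)).1
          have e2 := (hTd k).1
          rw [e1, e2, hm, hlk]
          apply q3
          intro i hi
          exact a2 i (by omega)
        · have e1 := (hk₀ (k + 1) (by omega)).2 i (by omega)
          have e2 := (hk₀ k hk').2 i (by omega)
          omega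
      obtain ⟨k₁, hk₁, hl₁⟩ := hlen
      have hmono : ∀ k, k₁ ≤ k → ent (s (k + 1)) m ≤ ent (s k) m := by
        intro k hk
        obtain ⟨-, -, hkb, -⟩ := hlt k
        have hag : ∀ i < m, ent (s (k + 1)) i = ent (s k) i := by
          intro i hi
          rw [(hk₀ (k + 1) (by omega)).2 i hi, (hk₀ k (by omega)).2 i hi]
        rcases hkb with ⟨a1, a2⟩ | ⟨i, a1, a2, a3, a4⟩
        · exact le_of_eq (a2 m (hl₁ k hk))
        · rcases lt_trichotomy i m with h | h | h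
          · have := hag i h
            omega
          · subst h
            exact a4.le
          · exact le_of_eq (a3 m h)
      obtain ⟨k₂, hk₂, hc⟩ := S8_KBc.ev_const (fun k => ent (s k) m) k₁ hmono
      refine ⟨k₂, fun k hk => ⟨hl₁ k (by omega), fun i hi => ?_⟩⟩
      rcases Nat.lt_succ_iff_lt_or_eq.1 hi with h | h
      · rw [(hk₀ k (by omega)).2 i h, (hk₀ k₂ (by omega)).2 i h]
      · rw [h]
        exact hc k hk
  choose c hc using claim
  let g : ℕ → ℕ := fun m => ent (s (c (m + 1))) m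
  have hg : ∀ m k, c (m + 1) ≤ k → m < len (s k) ∧ ent (s k) m = g m := by
    intro m k hk
    exact ⟨(hc (m + 1) k hk).1, (hc (m + 1) k hk).2 m (Nat.lt_succ_self m)⟩
  refine ⟨g, ?_, ?_⟩
  · intro m
    -- a large index
    have hbig : ∃ k, ∀ i < m, c (i + 1) ≤ k := by
      refine ⟨(Finset.range m).sup (fun i => c (i + 1)), fun i hi => ?_⟩
      exact Finset.le_sup (f := fun i => c (i + 1)) (Finset.mem_range.2 hi)
    obtain ⟨k, hk⟩ := hbig
    have hk' : ∀ i < m, c (i + 1) ≤ k + c m := fun i hi => le_trans (hk i hi) (Nat.le_add_right _ _)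
    have e : cd m g = cd m (ent (s (k + c m))) :=
      q3 _ _ _ fun i hi => ((hg i _ (hk' i hi)).2).symm
    rw [e]
    exact (hTd (k + c m)).2 m (hc m (k + c m) (Nat.le_add_left _ _)).1
  · have h := AS.closed S8_KBc.as hK (fun _ => 0) (fun _ => f) (fun _ => hf)
    have e : gr g = {x | ∃ k₀, ∀ k, k₀ ≤ k →
        x.unpair.1 < (sInf {y | Nat.pair k y ∈ f}).unpair.1 ∧
        Nat.beta (sInf {y | Nat.pair k y ∈ f}).unpair.2 x.unpair.1 = x.unpair.2} := by
      apply Set.ext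
      intro x
      show x.unpair.2 = g x.unpair.1 ↔ ∃ k₀, ∀ k, k₀ ≤ k → x.unpair.1 < len (s k) ∧
        ent (s k) x.unpair.1 = x.unpair.2
      constructor
      · intro hx
        refine ⟨c (x.unpair.1 + 1), fun k hk => ?_⟩
        rw [hx]
        exact hg _ k hk
      · rintro ⟨k₀, hk₀⟩
        have h1 := (hk₀ (k₀ + c (x.unpair.1 + 1)) (Nat.le_add_right _ _)).2
        have h2 := (hg x.unpair.1 (k₀ + c (x.unpair.1 + 1)) (Nat.le_add_left _ _)).2
        rw [← h1, h2]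
    rw [e]
    exact h

end B8d
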