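import Pool.Agent.Lib.MP_8dbd20_lc.S8.Spec

/-!
# MP_8dbd20_lc, `S8/KBl`: the Kleene-Brouwer order is an arithmetical linear order
-/

namespace B8d

namespace S8_KBl

theorem refl (s : ℕ) : kbl s s := Or.inl ⟨le_refl _, fun _ _ => rfl⟩

theorem antisymm (q3 : ∀ m g g', (∀ i < m, g i = g' i) → cd m g = cd m g') {s t : ℕ}
    (hs : s = cd (len s) (ent s)) (ht : t = cd (len t) (ent t)) (h1 : kbl s t) (h2 : kbl t s) :
    s = t := by
  rcases h1 with ⟨a1, a2⟩ | ⟨i, a1, a2, a3, a4⟩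
  · rcases h2 with ⟨b1, b2⟩ | ⟨i, b1, b2, b3, b4⟩
    · have e : len s = len t := le_antisymm b1 a1
      rw [hs, ht, e]
      exact q3 _ _ _ a2
    · exfalso
      have := a2 i b1
      omega
  · rcases h2 with ⟨b1, b2⟩ | ⟨j, b1, b2, b3, b4⟩
    · exfalso
      have := b2 i a1
      omega
    · exfalso
      rcases lt_trichotomy i j with h | h | h
      · have := b3 i h
        omega
      · subst h
        omega
      · have := a3 j h
        omega

theorem trans {s t u : ℕ} (h1 : kbl s t) (h2 : kbl t u) : kbl s u := by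
  rcases h1 with ⟨a1, a2⟩ | ⟨i, a1, a2, a3, a4⟩
  · rcases h2 with ⟨b1, b2⟩ | ⟨j, b1, b2, b3, b4⟩
    · exact Or.inl ⟨le_trans b1 a1, fun i hi => (a2 i (lt_of_lt_of_le hi b1)).trans (b2 i hi)⟩
    · refine Or.inr ⟨j, lt_of_lt_of_le b1 a1, b2, fun i hi => ?_, ?_⟩
      · exact (a2 i (lt_trans hi b1)).trans (b3 i hi)
      · rw [a2 j b1]
        exact b4
  · rcases h2 with ⟨b1, b2⟩ | ⟨j, b1, b2, b3, b4⟩
    · by_cases hi : i < len u
      · refine Or.inr ⟨i, a1, hi, fun j hj => ?_, ?_⟩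
        · exact (a3 j hj).trans (b2 j (lt_trans hj hi))
        · rw [← b2 i hi]
          exact a4
      · refine Or.inl ⟨by omega, fun j hj => ?_⟩
        exact (a3 j (by omega)).trans (b2 j hj)
    · rcases lt_trichotomy i j with h | h | h
      · refine Or.inr ⟨i, a1, lt_trans h b2, fun k hk => ?_, ?_⟩
        · exact (a3 k hk).trans (b3 k (lt_trans hk h))
        · rw [← b3 i h]
          exact a4
      · subst h
        exact Or.inr ⟨i, a1, b2, fun k hk => (a3 k hk).trans (b3 k hk), lt_trans a4 b4⟩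
      · refine Or.inr ⟨j, lt_trans h a1, b2, fun k hk => ?_, ?_⟩
        · exact (a3 k (lt_trans hk h)).trans (b3 k hk)
        · rw [a3 j h]
          exact b4

theorem total (s t : ℕ) : kbl s t ∨ kbl t s := by
  by_cases h : ∃ i, i < len s ∧ i < len t ∧ ent s i ≠ ent t i
  · classical
    obtain ⟨a1, a2, a3⟩ := Nat.find_spec h
    have a4 : ∀ j < Nat.find h, ent s j = ent t j := by
      intro j hj
      by_contra hne
      exact Nat.find_min h hj ⟨lt_trans hj a1, lt_trans hj a2, hne⟩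
    rcases lt_or_gt_of_ne a3 with h1 | h1
    · exact Or.inl (Or.inr ⟨Nat.find h, a1, a2, a4, h1⟩)
    · exact Or.inr (Or.inr ⟨Nat.find h, a2, a1, fun j hj => (a4 j hj).symm, h1⟩)
  · push Not at h
    rcases le_total (len s) (len t) with h1 | h1
    · exact Or.inr (Or.inl ⟨h1, fun i hi => (h i hi (lt_of_lt_of_le hi h1)).symm⟩)
    · exact Or.inl (Or.inl ⟨h1, fun i hi => h i (lt_of_lt_of_le hi h1) hi⟩)

theorem as : AS (fun _ V => KB (V 0)) := by
  unfold KB Td kbl cd len ent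
  aesop (config := { enableSimp := false })

theorem mem {T : Set ℕ} {i j : ℕ} : Nat.pair i j ∈ KB T ↔ i ∈ Td T ∧ j ∈ Td T ∧ kbl i j := by
  show (Nat.pair i j).unpair.1 ∈ Td T ∧ (Nat.pair i j).unpair.2 ∈ Td T ∧
    kbl (Nat.pair i j).unpair.1 (Nat.pair i j).unpair.2 ↔ _
  rw [Nat.unpair_pair]

end S8_KBl

theorem tKBl (h1 : S_Sq) : S_KBl := by
  obtain ⟨q1, q2, q3⟩ := h1
  refine ⟨S8_KBl.as, fun T => ⟨?_, ?_, ?_, ?_⟩⟩
  · intro i j h
    rw [S8_KBl.mem] at h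
    exact ⟨S8_KBl.mem.2 ⟨h.1, h.1, S8_KBl.refl i⟩, S8_KBl.mem.2 ⟨h.2.1, h.2.1, S8_KBl.refl j⟩⟩
  · intro i j h h'
    rw [S8_KBl.mem] at h h'
    exact S8_KBl.antisymm q3 h.1.1 h.2.1.1 h.2.2 h'.2.2
  · intro i j k h h'
    rw [S8_KBl.mem] at h h'
    exact S8_KBl.mem.2 ⟨h.1, h'.2.1, S8_KBl.trans h.2.2 h'.2.2⟩
  · intro i j h h'
    rw [S8_KBl.mem] at h h'
    rcases S8_KBl.total i j with h1 | h1
    · exact Or.inl (S8_KBl.mem.2 ⟨h.1, h'.1, h1⟩)
    · exact Or.inr (S8_KBl.mem.2 ⟨h'.1, h.1, h1⟩)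

end B8d
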