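import Pool.Agent.Lib.MP_8dbd20_lc.S8.Spec

/-!
# MP_8dbd20_lc, section 8: the matrix of the instance of dependent choice is arithmetical
-/

namespace B8d

open Pool.Agent.Lib.Z2 (sg)

namespace S8_MtxA

theorem inf_iff (Z : Set ℕ) : Z.Infinite ↔ ∀ m, ∃ k, m < k ∧ k ∈ Z := by
  constructor
  · intro h m
    obtain ⟨k, hk, hm⟩ := h.exists_gt m
    exact ⟨k, hm, hk⟩
  · intro h
    apply Set.infinite_of_not_bddAbove
    rintro ⟨b, hb⟩
    obtain ⟨k, hk, hkZ⟩ := h b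
    exact absurd (hb hkZ) (not_le.2 hk)

theorem ar_inf {s : (ℕ → ℕ) → (ℕ → Set ℕ) → Set ℕ} (hs : AS s) :
    Ar (fun v V => (s v V).Infinite) := by
  have h : Ar (fun _ V => (V 0).Infinite) := by
    refine Ar.congr (R := fun _ V => ∀ m, ∃ k, m < k ∧ k ∈ V 0) ?_ fun v V => inf_iff _
    aesop (config := { enableSimp := false })
  exact Ar.s01 (R := fun X => X.Infinite) h hs

theorem ar_fin {s : (ℕ → ℕ) → (ℕ → Set ℕ) → Set ℕ} (hs : AS s) :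
    Ar (fun v V => (s v V).Finite) :=
  ((ar_inf hs).not).congr fun _ _ => Set.not_infinite.symm

theorem as_fld {s : (ℕ → ℕ) → (ℕ → Set ℕ) → Set ℕ} (hs : AS s) :
    AS (fun v V => fld (s v V)) := by
  have h : AS (fun _ V => fld (V 0)) := by
    unfold fld
    aesop (config := { enableSimp := false })
  exact AS.s01 (R := fun X => fld X) h hs

theorem ar_vio (h2 : S_L0b) (h3 : S_SgA) {c y z : (ℕ → ℕ) → (ℕ → Set ℕ) → Set ℕ} (hc : AS c)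
    (hy : AS y) (hz : AS z) : Ar (fun v V => Vio (c v V) (y v V) (z v V)) := by
  have h : Ar (fun _ V => Vio (V 0) (V 1) (V 2)) := by
    unfold Vio
    refine ar_inf (s := fun _ V => {k | k ∈ V 2 ∧ sg k (V 2) (V 1) ∈ Gam (V 0)}) ?_
    refine AS.setOf (R := fun k _ V => k ∈ V 2 ∧ sg k (V 2) (V 1) ∈ Gam (V 0)) ?_
    refine Ar.and (Ar.memv 0 2) (Ar.mem ?_ ?_)
    · exact h3.ren (fun i => i) (fun j => if j = 0 then 2 else 1)
    · exact h2.2.2.2.2.2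
  exact Ar.s03 (R := fun X Y Z => Vio X Y Z) h hc hy hz

end S8_MtxA

open S8_MtxA in
theorem tMtxA (h1 : S_L0) (h2 : S_L0b) (h3 : S_SgA) : S_MtxA := by
  unfold S_MtxA Mtx
  have hl : ∀ {s : (ℕ → ℕ) → (ℕ → Set ℕ) → Set ℕ}, AS s → Ar (fun v V => Local (s v V)) :=
    fun hs => Ar.s01 (R := fun X => Local X) h1 hs
  have hd : ∀ {s t : (ℕ → ℕ) → (ℕ → Set ℕ) → Set ℕ}, AS s → AS t →
      Ar (fun v V => Desc (s v V) (t v V)) :=
    fun hs ht => Ar.s02 (R := fun X Y => Desc X Y) h2.2.2.1 hs ht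
  have hsec : ∀ {s : (ℕ → ℕ) → (ℕ → Set ℕ) → Set ℕ} (n : ℕ), AS s →
      AS (fun v V => sec (s v V) n) := fun n hs => AS.sec hs (AN.const n)
  refine Ar.and (ar_inf (hsec 1 (AS.var 2))) (Ar.and ?_ ?_)
  · refine Ar.imp (hl (hsec 0 (AS.var 1))) (Ar.or (hd (AS.var 0) (hsec 0 (hsec 0 (AS.var 1)))) ?_)
    refine Ar.allN (R := fun i _ V => i ∈ fld (sec (V 1) 0) →
      ¬ Vio (sec (sec (V 1) 0) (i + 1)) (sec (V 2) 0) (sec (V 2) 1)) ?_
    refine Ar.imp (Ar.mem (AN.var 0) (as_fld (hsec 0 (AS.var 1)))) (Ar.not ?_)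
    exact ar_vio h2 h3 (AS.sec (hsec 0 (AS.var 1)) (AN.add (AN.var 0) (AN.const 1)))
      (hsec 0 (AS.var 2)) (hsec 1 (AS.var 2))
  · refine Ar.or (Ar.eqS (hsec 0 (AS.var 2)) (hsec 1 (AS.var 3)))
      (Ar.or (ar_fin (hsec 1 (AS.var 3))) (Ar.and (hl (hsec 2 (AS.var 2))) (Ar.and ?_ ?_)))
    · exact Ar.not (hd (hsec 1 (AS.var 1)) (hsec 0 (hsec 2 (AS.var 2))))
    · refine Ar.exN (R := fun i _ V => i ∈ fld (sec (V 2) 2) ∧
        Vio (sec (sec (V 2) 2) (i + 1)) (sec (V 3) 0) (sec (V 3) 1)) ?_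
      refine Ar.and (Ar.mem (AN.var 0) (as_fld (hsec 2 (AS.var 2)))) ?_
      exact ar_vio h2 h3 (AS.sec (hsec 2 (AS.var 2)) (AN.add (AN.var 0) (AN.const 1)))
        (hsec 0 (AS.var 3)) (hsec 1 (AS.var 3))

end B8d
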