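import Pool.Agent.Lib.MP_8dbd20_lc.S8.Spec

/-!
# MP_8dbd20_lc, section 8: the matrix as a formula of the standard language
-/

namespace B8d

theorem tMtxF (h1 : S_MtxA) (h2 : S_Br7) : S_MtxF := by
  obtain ⟨φ, ha, hφ⟩ := h1
  obtain ⟨θ, hθ, hs⟩ := h2.2 φ
  refine ⟨θ, hθ ha, fun M e E => ?_⟩
  rw [hs M e E, eval_arith ha M ∅ ∅ ∅ e E]
  exact (hφ e E).symm

end B8d
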