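import Pool.Agent.Lib.MP_8dbd20_lc.S8.Spec

/-!
# MP_8dbd20_lc, `S8/NFa`: closed witness form of atomic relations
-/

namespace B8d

namespace S8_NFa

/-- relations which do not depend on the first set -/
theorem const {Q : (ℕ → ℕ) → (ℕ → Set ℕ) → Prop} (hQ : Ar Q)
    {R : (ℕ → ℕ) → (ℕ → Set ℕ) → Prop} (h : ∀ v X V, R v (sc X V) ↔ Q v V) : NF R := by
  refine ⟨fun v' V => Q (fun i => v' (i + 2)) V, ?_, ?_⟩
  · exact hQ.ren (fun i => i + 2) (fun j => j)
  · intro v V x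
    rw [h]
    constructor
    · intro hq
      exact ⟨fun _ => 0, fun _ => hq⟩
    · rintro ⟨g, hg⟩
      exact hg 0

theorem ar1 (i : ℕ) : Ar (fun v' (_ : ℕ → Set ℕ) => v' (i + 2) < (v' 0).unpair.1 →
    Nat.beta (v' 0).unpair.2 (v' (i + 2)) = 0) := by
  aesop (config := { enableSimp := false })

theorem ar2 (i : ℕ) : Ar (fun v' (_ : ℕ → Set ℕ) => v' (i + 2) < (v' 0).unpair.1 →
    ¬ Nat.beta (v' 0).unpair.2 (v' (i + 2)) = 0) := by
  aesop (config := { enableSimp := false })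

end S8_NFa

theorem tNFa (h1 : S_Sq) : S_NFa := by
  obtain ⟨q1, q2, -⟩ := h1
  rintro φ (rfl | ⟨i, j, k, rfl⟩ | ⟨i, j, k, rfl⟩ | ⟨i, j, rfl⟩)
  · exact ⟨S8_NFa.const Ar.fls (fun _ _ _ => Iff.rfl), S8_NFa.const Ar.fls.not (fun _ _ _ => Iff.rfl)⟩
  · exact ⟨S8_NFa.const (Ar.addv i j k) (fun _ _ _ => Iff.rfl),
      S8_NFa.const (Ar.addv i j k).not (fun _ _ _ => Iff.rfl)⟩
  · exact ⟨S8_NFa.const (Ar.mulv i j k) (fun _ _ _ => Iff.rfl),
      S8_NFa.const (Ar.mulv i j k).not (fun _ _ _ => Iff.rfl)⟩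
  · cases j with
    | succ j =>
      exact ⟨S8_NFa.const (Ar.memv i j) (fun _ _ _ => Iff.rfl),
        S8_NFa.const (Ar.memv i j).not (fun _ _ _ => Iff.rfl)⟩
    | zero =>
      constructor
      · refine ⟨_, S8_NFa.ar1 i, ?_⟩
        intro v V x
        show x (v i) = 0 ↔ ∃ g : ℕ → ℕ, ∀ m, v i < len (cd m x) → ent (cd m x) (v i) = 0
        constructor
        · intro h
          refine ⟨fun _ => 0, fun m hm => ?_⟩
          rw [q1] at hm
          rw [q2 m x (v i) hm, h]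
        · rintro ⟨g, hg⟩
          have h := hg (v i + 1)
          rw [q1, q2 (v i + 1) x (v i) (Nat.lt_succ_self _)] at h
          exact h (Nat.lt_succ_self _)
      · refine ⟨_, S8_NFa.ar2 i, ?_⟩
        intro v V x
        show ¬ x (v i) = 0 ↔ ∃ g : ℕ → ℕ, ∀ m, v i < len (cd m x) → ¬ ent (cd m x) (v i) = 0
        constructor
        · intro h
          refine ⟨fun _ => 0, fun m hm => ?_⟩
          rw [q1] at hm
          rw [q2 m x (v i) hm]
          exact h
        · rintro ⟨g, hg⟩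
          have h := hg (v i + 1)
          rw [q1, q2 (v i + 1) x (v i) (Nat.lt_succ_self _)] at h
          exact h (Nat.lt_succ_self _)

end B8d
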