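import Pool.Agent.Lib.MP_8dbd20_lc.S8.Spec

/-!
# MP_8dbd20_lc, `S8/NFb`: closed witness form of conjunctions and disjunctions
-/

namespace B8d

namespace S8_NFb

/-- substitution of two number terms -/
theorem sub {P : (ℕ → ℕ) → (ℕ → Set ℕ) → Prop} (hP : Ar P) {t1 t2 : (ℕ → ℕ) → ℕ}
    (h1 : AN (fun v _ => t1 v)) (h2 : AN (fun v _ => t2 v)) :
    Ar (fun v V => P (nc (t1 v) (nc (t2 v) (fun i => v (i + 2)))) V) := by
  have := Ar.subst hP (f := fun i v _ => nc (t1 v) (nc (t2 v) (fun i => v (i + 2))) i)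
    (t := fun j _ V => V j) (by
      intro i
      rcases i with _ | _ | i
      · exact h1
      · exact h2
      · exact AN.var (i + 2)) (fun j => AS.var j)
  exact this

theorem an1 : AN (fun v (_ : ℕ → Set ℕ) => cd (len (v 0) / 2) (ent (v 0))) := by
  unfold cd len ent
  aesop (config := { enableSimp := false })

theorem an2 : AN (fun v (_ : ℕ → Set ℕ) => cd (len (v 0) / 2) (fun i => ent (v 1) (2 * i))) := by
  unfold cd len ent
  aesop (config := { enableSimp := false })

theorem an3 : AN (fun v (_ : ℕ → Set ℕ) =>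
    cd (len (v 0) / 2) (fun i => ent (v 1) (2 * i + 1))) := by
  unfold cd len ent
  aesop (config := { enableSimp := false })

theorem an4 : AN (fun v (_ : ℕ → Set ℕ) => cd (len (v 0) - 1) (ent (v 0))) := by
  unfold cd len ent
  aesop (config := { enableSimp := false })

theorem an5 : AN (fun v (_ : ℕ → Set ℕ) => cd (len (v 0) - 1) (fun i => ent (v 1) (i + 1))) := by
  unfold cd len ent
  aesop (config := { enableSimp := false })

theorem ar1 : Ar (fun v (_ : ℕ → Set ℕ) => 1 ≤ len (v 0)) := by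
  unfold len
  aesop (config := { enableSimp := false })

theorem ar2 : Ar (fun v (_ : ℕ → Set ℕ) => ent (v 1) 0 = 0) := by
  unfold ent
  aesop (config := { enableSimp := false })

end S8_NFb

theorem tNFb (h1 : S_Sq) : S_NFb := by
  obtain ⟨q1, q2, q3⟩ := h1
  intro R S hR hS
  obtain ⟨P, hP, hPR⟩ := hR
  obtain ⟨Q, hQ, hQS⟩ := hS
  constructor
  · refine ⟨_, (S8_NFb.sub hP S8_NFb.an1 S8_NFb.an2).and (S8_NFb.sub hQ S8_NFb.an1 S8_NFb.an3), ?_⟩
    intro v V x
    beta_reduce
    rw [hPR, hQS]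
    have key : ∀ (m : ℕ) (g : ℕ → ℕ), cd (len (cd m x) / 2) (ent (cd m x)) = cd (m / 2) x ∧
        cd (len (cd m x) / 2) (fun i => ent (cd m g) (2 * i)) = cd (m / 2) (fun i => g (2 * i)) ∧
        cd (len (cd m x) / 2) (fun i => ent (cd m g) (2 * i + 1)) =
          cd (m / 2) (fun i => g (2 * i + 1)) := by
      intro m g
      rw [q1]
      refine ⟨q3 _ _ _ fun i hi => ?_, q3 _ _ _ fun i hi => ?_, q3 _ _ _ fun i hi => ?_⟩
      · exact q2 m x i (by omega)
      · exact q2 m g (2 * i) (by omega)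
      · exact q2 m g (2 * i + 1) (by omega)
    constructor
    · rintro ⟨⟨g1, hg1⟩, ⟨g2, hg2⟩⟩
      refine ⟨fun n => if n % 2 = 0 then g1 (n / 2) else g2 (n / 2), fun m => ?_⟩
      obtain ⟨k1, k2, k3⟩ := key m (fun n => if n % 2 = 0 then g1 (n / 2) else g2 (n / 2))
      show P (nc (cd (len (cd m x) / 2) (ent (cd m x))) (nc (cd (len (cd m x) / 2)
        (fun i => ent (cd m (fun n => if n % 2 = 0 then g1 (n / 2) else g2 (n / 2))) (2 * i))) v)) V ∧
        Q (nc (cd (len (cd m x) / 2) (ent (cd m x))) (nc (cd (len (cd m x) / 2)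
        (fun i => ent (cd m (fun n => if n % 2 = 0 then g1 (n / 2) else g2 (n / 2)))
          (2 * i + 1))) v)) V
      rw [k1, k2, k3]
      have e1 : (fun i => if (2 * i) % 2 = 0 then g1 ((2 * i) / 2) else g2 ((2 * i) / 2)) = g1 := by
        funext i
        rw [if_pos (by omega)]
        congr 1
        omega
      have e2 : (fun i => if (2 * i + 1) % 2 = 0 then g1 ((2 * i + 1) / 2)
          else g2 ((2 * i + 1) / 2)) = g2 := by
        funext i
        rw [if_neg (by omega)]
        congr 1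
        omega
      constructor
      · rw [e1]
        exact hg1 (m / 2)
      · rw [e2]
        exact hg2 (m / 2)
    · rintro ⟨g, hg⟩
      have hg' : ∀ m, P (nc (cd (len (cd m x) / 2) (ent (cd m x))) (nc (cd (len (cd m x) / 2)
        (fun i => ent (cd m g) (2 * i))) v)) V ∧
        Q (nc (cd (len (cd m x) / 2) (ent (cd m x))) (nc (cd (len (cd m x) / 2)
        (fun i => ent (cd m g) (2 * i + 1))) v)) V := hg
      constructor
      · refine ⟨fun i => g (2 * i), fun h => ?_⟩
        have h1 := (hg' (2 * h)).1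
        obtain ⟨k1, k2, -⟩ := key (2 * h) g
        rw [k1, k2, Nat.mul_div_cancel_left h (by norm_num)] at h1
        exact h1
      · refine ⟨fun i => g (2 * i + 1), fun h => ?_⟩
        have h1 := (hg' (2 * h)).2
        obtain ⟨k1, -, k3⟩ := key (2 * h) g
        rw [k1, k3, Nat.mul_div_cancel_left h (by norm_num)] at h1
        exact h1
  · refine ⟨_, S8_NFb.ar1.imp ((S8_NFb.ar2.imp (S8_NFb.sub hP S8_NFb.an4 S8_NFb.an5)).and
      (S8_NFb.ar2.not.imp (S8_NFb.sub hQ S8_NFb.an4 S8_NFb.an5))), ?_⟩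
    intro v V x
    beta_reduce
    rw [hPR, hQS]
    have key : ∀ (m : ℕ) (g : ℕ → ℕ), cd (len (cd (m + 1) x) - 1) (ent (cd (m + 1) x)) = cd m x ∧
        cd (len (cd (m + 1) x) - 1) (fun i => ent (cd (m + 1) g) (i + 1)) =
          cd m (fun i => g (i + 1)) ∧ ent (cd (m + 1) g) 0 = g 0 := by
      intro m g
      rw [q1, Nat.add_sub_cancel]
      refine ⟨q3 _ _ _ fun i hi => ?_, q3 _ _ _ fun i hi => ?_, ?_⟩
      · exact q2 (m + 1) x i (by omega)
      · exact q2 (m + 1) g (i + 1) (by omega)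
      · exact q2 (m + 1) g 0 (by omega)
    have main : ∀ g : ℕ → ℕ, (∀ m, 1 ≤ len (cd m x) → ((ent (cd m g) 0 = 0 →
        P (nc (cd (len (cd m x) - 1) (ent (cd m x))) (nc (cd (len (cd m x) - 1)
          (fun i => ent (cd m g) (i + 1))) v)) V) ∧ (¬ ent (cd m g) 0 = 0 →
        Q (nc (cd (len (cd m x) - 1) (ent (cd m x))) (nc (cd (len (cd m x) - 1)
          (fun i => ent (cd m g) (i + 1))) v)) V))) ↔
        ∀ m, (g 0 = 0 → P (nc (cd m x) (nc (cd m (fun i => g (i + 1))) v)) V) ∧
          (¬ g 0 = 0 → Q (nc (cd m x) (nc (cd m (fun i => g (i + 1))) v)) V) := by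
      intro g
      constructor
      · intro h m
        have h1 := h (m + 1) (by rw [q1]; omega)
        obtain ⟨k1, k2, k3⟩ := key m g
        rw [k1, k2, k3] at h1
        exact h1
      · intro h m hm
        rw [q1] at hm
        obtain ⟨m, rfl⟩ : ∃ k, m = k + 1 := ⟨m - 1, by omega⟩
        obtain ⟨k1, k2, k3⟩ := key m g
        rw [k1, k2, k3]
        exact h m
    constructor
    · rintro (⟨g1, hg1⟩ | ⟨g2, hg2⟩)
      · refine ⟨fun n => Nat.casesOn n 0 (fun i => g1 i), ?_⟩
        refine (main _).2 fun m => ⟨fun _ => hg1 m, fun h => absurd rfl h⟩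
      · refine ⟨fun n => Nat.casesOn n 1 (fun i => g2 i), ?_⟩
        refine (main _).2 fun m => ⟨fun h => absurd h one_ne_zero, fun _ => hg2 m⟩
    · rintro ⟨g, hg⟩
      have h := (main g).1 hg
      by_cases h0 : g 0 = 0
      · exact Or.inl ⟨fun i => g (i + 1), fun m => (h m).1 h0⟩
      · exact Or.inr ⟨fun i => g (i + 1), fun m => (h m).2 h0⟩

end B8d
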