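import Pool.Agent.Lib.MP_8dbd20_lc.S8.Spec

/-!
# MP_8dbd20_lc, `S8/NFc`: closed witness form, number quantifiers
-/

namespace B8d

namespace S8_NFc

/-- substitution of three number terms -/
theorem sub {P : (ℕ → ℕ) → (ℕ → Set ℕ) → Prop} (hP : Ar P) (k : ℕ) {t1 t2 t3 : (ℕ → ℕ) → ℕ}
    (h1 : AN (fun v _ => t1 v)) (h2 : AN (fun v _ => t2 v)) (h3 : AN (fun v _ => t3 v)) :
    Ar (fun v V => P (nc (t1 v) (nc (t2 v) (nc (t3 v) (fun i => v (i + k))))) V) := by
  have := Ar.subst hP
    (f := fun i v _ => nc (t1 v) (nc (t2 v) (nc (t3 v) (fun i => v (i + k)))) i)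
    (t := fun j _ V => V j) (by
      intro i
      rcases i with _ | _ | _ | i
      · exact h1
      · exact h2
      · exact h3
      · exact AN.var (i + k)) (fun j => AS.var j)
  exact this

theorem an1 : AN (fun v (_ : ℕ → Set ℕ) => cd (v 0) (ent (v 2))) := by
  unfold cd ent
  aesop (config := { enableSimp := false })

theorem an2 : AN (fun v (_ : ℕ → Set ℕ) => cd (v 0) (fun i => ent (v 3) (Nat.pair (v 1) i))) := by
  unfold cd ent
  aesop (config := { enableSimp := false })

theorem an4 : AN (fun v (_ : ℕ → Set ℕ) => cd (len (v 0) - 1) (ent (v 0))) := by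
  unfold cd len ent
  aesop (config := { enableSimp := false })

theorem an5 : AN (fun v (_ : ℕ → Set ℕ) => cd (len (v 0) - 1) (fun i => ent (v 1) (i + 1))) := by
  unfold cd len ent
  aesop (config := { enableSimp := false })

theorem an6 : AN (fun v (_ : ℕ → Set ℕ) => ent (v 1) 0) := by
  unfold ent
  aesop (config := { enableSimp := false })

theorem ar1 : Ar (fun v (_ : ℕ → Set ℕ) => 1 ≤ len (v 0)) := by
  unfold len
  aesop (config := { enableSimp := false })

theorem ar3 : Ar (fun v (_ : ℕ → Set ℕ) => v 0 ≤ len (v 2)) := by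
  unfold len
  aesop (config := { enableSimp := false })

theorem ar4 : Ar (fun v (_ : ℕ → Set ℕ) => ∀ i, i < v 0 → Nat.pair (v 1) i < len (v 2)) := by
  unfold len
  aesop (config := { enableSimp := false })

end S8_NFc

theorem tNFc (h1 : S_Sq) : S_NFc := by
  obtain ⟨q1, q2, q3⟩ := h1
  intro R hR
  obtain ⟨P, hP, hPR⟩ := hR
  constructor
  · refine ⟨fun v V => ∀ n h, h ≤ len (v 0) → (∀ i, i < h → Nat.pair n i < len (v 0)) →
      P (nc (cd h (ent (v 0))) (nc (cd h (fun i => ent (v 1) (Nat.pair n i)))
        (nc n (fun i => v (i + 2))))) V, ?_, ?_⟩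
    · refine Ar.allN (R := fun n v V => ∀ h, h ≤ len (v 0) → (∀ i, i < h → Nat.pair n i < len (v 0)) →
        P (nc (cd h (ent (v 0))) (nc (cd h (fun i => ent (v 1) (Nat.pair n i)))
          (nc n (fun i => v (i + 2))))) V) ?_
      refine Ar.allN (R := fun h v V => h ≤ len (v 1) → (∀ i, i < h → Nat.pair (v 0) i < len (v 1)) →
        P (nc (cd h (ent (v 1))) (nc (cd h (fun i => ent (v 2) (Nat.pair (v 0) i)))
          (nc (v 0) (fun i => v (i + 3))))) V) ?_
      exact S8_NFc.ar3.imp (S8_NFc.ar4.imp (S8_NFc.sub hP 4 S8_NFc.an1 S8_NFc.an2 (AN.var 1)))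
    · intro v V x
      have main : ∀ g : ℕ → ℕ, (∀ m, ∀ n h, h ≤ len (cd m x) →
          (∀ i, i < h → Nat.pair n i < len (cd m x)) →
          P (nc (cd h (ent (cd m x))) (nc (cd h (fun i => ent (cd m g) (Nat.pair n i)))
            (nc n v))) V) ↔
          ∀ n h, P (nc (cd h x) (nc (cd h (fun i => g (Nat.pair n i))) (nc n v))) V := by
        intro g
        have key : ∀ m n h, h ≤ m → (∀ i, i < h → Nat.pair n i < m) →
            cd h (ent (cd m x)) = cd h x ∧
            cd h (fun i => ent (cd m g) (Nat.pair n i)) = cd h (fun i => g (Nat.pair n i)) := by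
          intro m n h hm hi
          exact ⟨q3 _ _ _ fun i hi' => q2 m x i (lt_of_lt_of_le hi' hm),
            q3 _ _ _ fun i hi' => q2 m g _ (hi i hi')⟩
        constructor
        · intro H n h
          obtain ⟨m, hm, hi⟩ : ∃ m, h ≤ m ∧ ∀ i, i < h → Nat.pair n i < m := by
            refine ⟨h + Nat.pair n h + 1, by omega, fun i hi => ?_⟩
            have := Nat.pair_lt_pair_right n hi
            omega
          have H1 := H m n h (by rw [q1]; exact hm) (by
            intro i hi'
            rw [q1]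
            exact hi i hi')
          obtain ⟨k1, k2⟩ := key m n h hm hi
          rw [k1, k2] at H1
          exact H1
        · intro H m n h hm hi
          rw [q1] at hm
          have hi' : ∀ i, i < h → Nat.pair n i < m := by
            intro i hi0
            have := hi i hi0
            rw [q1] at this
            exact this
          obtain ⟨k1, k2⟩ := key m n h hm hi'
          rw [k1, k2]
          exact H n h
      have h0 : (∀ n, R (nc n v) (sc {n | x n = 0} V)) ↔
          ∀ n, ∃ g : ℕ → ℕ, ∀ m, P (nc (cd m x) (nc (cd m g) (nc n v))) V :=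
        forall_congr' fun n => hPR (nc n v) V x
      constructor
      · intro h
        have h' := h0.1 h
        choose G hG using h'
        refine ⟨fun k => G k.unpair.1 k.unpair.2, ?_⟩
        refine (main _).2 fun n h => ?_
        have e : (fun i => G (Nat.pair n i).unpair.1 (Nat.pair n i).unpair.2) = G n := by
          funext i
          rw [Nat.unpair_pair]
        show P (nc (cd h x) (nc (cd h (fun i => G (Nat.pair n i).unpair.1 (Nat.pair n i).unpair.2))
          (nc n v))) V
        rw [e]
        exact hG n h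
      · rintro ⟨g, hg⟩
        have hg' := (main g).1 hg
        exact h0.2 fun n => ⟨fun i => g (Nat.pair n i), hg' n⟩
  · refine ⟨_, S8_NFc.ar1.imp (S8_NFc.sub hP 2 S8_NFc.an4 S8_NFc.an5 S8_NFc.an6), ?_⟩
    intro v V x
    have main : ∀ g : ℕ → ℕ, (∀ m, 1 ≤ len (cd m x) →
        P (nc (cd (len (cd m x) - 1) (ent (cd m x))) (nc (cd (len (cd m x) - 1)
          (fun i => ent (cd m g) (i + 1))) (nc (ent (cd m g) 0) v))) V) ↔
        ∀ m, P (nc (cd m x) (nc (cd m (fun i => g (i + 1))) (nc (g 0) v))) V := by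
      intro g
      have key : ∀ (m : ℕ), cd (len (cd (m + 1) x) - 1) (ent (cd (m + 1) x)) = cd m x ∧
          cd (len (cd (m + 1) x) - 1) (fun i => ent (cd (m + 1) g) (i + 1)) =
            cd m (fun i => g (i + 1)) ∧ ent (cd (m + 1) g) 0 = g 0 := by
        intro m
        rw [q1, Nat.add_sub_cancel]
        refine ⟨q3 _ _ _ fun i hi => ?_, q3 _ _ _ fun i hi => ?_, ?_⟩
        · exact q2 (m + 1) x i (by omega)
        · exact q2 (m + 1) g (i + 1) (by omega)
        · exact q2 (m + 1) g 0 (by omega)
      constructor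
      · intro h m
        have h1 := h (m + 1) (by rw [q1]; omega)
        obtain ⟨k1, k2, k3⟩ := key m
        rw [k1, k2, k3] at h1
        exact h1
      · intro h m hm
        rw [q1] at hm
        obtain ⟨m, rfl⟩ : ∃ k, m = k + 1 := ⟨m - 1, by omega⟩
        obtain ⟨k1, k2, k3⟩ := key m
        rw [k1, k2, k3]
        exact h m
    have h0 : (∃ n, R (nc n v) (sc {n | x n = 0} V)) ↔
        ∃ n, ∃ g : ℕ → ℕ, ∀ m, P (nc (cd m x) (nc (cd m g) (nc n v))) V :=
      exists_congr fun n => hPR (nc n v) V x
    constructor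
    · intro h
      obtain ⟨n, g, hg⟩ := h0.1 h
      refine ⟨fun i => Nat.casesOn i n (fun i => g i), ?_⟩
      exact (main _).2 fun m => hg m
    · rintro ⟨g, hg⟩
      exact h0.2 ⟨g 0, fun i => g (i + 1), (main g).1 hg⟩

end B8d
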