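import Pool.Agent.Lib.MP_8dbd20_lc.S8.Spec

/-!
# MP_8dbd20_lc, section 8: closed witness form of all arithmetical relations
-/

namespace B8d

namespace S8_NFd

theorem nf_congr {R S : (ℕ → ℕ) → (ℕ → Set ℕ) → Prop} (h : NF R)
    (e : ∀ v V, S v V ↔ R v V) : NF S := by
  obtain ⟨P, hP, hR⟩ := h
  exact ⟨P, hP, fun v V x => (e _ _).trans (hR v V x)⟩

end S8_NFd

open S8_NFd in
theorem tNFd (h1 : S_NFa) (h2 : S_NFb) (h3 : S_NFc) : S_NFd := by
  intro R hR
  obtain ⟨φ, ha, hφ⟩ := hR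
  have key : ∀ φ : F, φ.arith → NF (fun v V => eval ∅ ∅ φ v V) ∧
      NF (fun v V => ¬ eval ∅ ∅ φ v V) := by
    intro φ
    induction φ with
    | fls => intro _; exact h1 .fls (Or.inl rfl)
    | add i j k => intro _; exact h1 _ (Or.inr (Or.inl ⟨i, j, k, rfl⟩))
    | mul i j k => intro _; exact h1 _ (Or.inr (Or.inr (Or.inl ⟨i, j, k, rfl⟩)))
    | mem i j => intro _; exact h1 _ (Or.inr (Or.inr (Or.inr ⟨i, j, rfl⟩)))
    | cc j => intro h; exact h.elim
    | neg φ ih =>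
      intro h
      obtain ⟨a, b⟩ := ih h
      exact ⟨b, nf_congr a fun v V => not_not⟩
    | and φ ψ ih1 ih2 =>
      intro h
      obtain ⟨a1, b1⟩ := ih1 h.1
      obtain ⟨a2, b2⟩ := ih2 h.2
      refine ⟨(h2 _ _ a1 a2).1, nf_congr (h2 _ _ b1 b2).2 fun v V => ?_⟩
      exact not_and_or
    | allN φ ih =>
      intro h
      obtain ⟨a, b⟩ := ih h
      refine ⟨(h3 _ a).1, nf_congr (h3 _ b).2 fun v V => ?_⟩
      exact not_forall
    | allS φ ih => intro h; exact h.elim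
  exact nf_congr (key φ ha).1 hφ

end B8d
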