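import Pool.Agent.Lib.MP_8dbd20_lc.S8.Spec

/-!
# MP_8dbd20_lc, section 8: preservation of well-foundedness, descending sequences (`S_PreD`)
-/

namespace B8d

open Pool.Agent.Lib.Z2 (NN)

namespace S8_PreD

theorem mod2_arc {K : Set (Set ℕ)} (h : Mod2 K) : ArClosed K := by
  rintro R ⟨φ, ha, hφ⟩ v V hV
  have h1 := h.2 φ v V hV
  have e : {n | R (nc n v) V} = {n | eval K ∅ φ (nc n v) V} := by
    ext n
    exact (hφ _ _).trans (eval_arith ha _ _ _ _ _ _)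
  rw [e]
  exact h1

theorem as_rec : AS (fun v V => {x | x.unpair.2 = Nat.rec (motive := fun _ => ℕ) (v 0)
    (fun _ w => sInf {b | b ∈ V 0 ∧ Nat.pair b w ∈ V 1}) x.unpair.1}) := by
  refine AS.setOf (R := fun x v V => x.unpair.2 = Nat.rec (motive := fun _ => ℕ) (v 0)
    (fun _ w => sInf {b | b ∈ V 0 ∧ Nat.pair b w ∈ V 1}) x.unpair.1) ?_
  refine Ar.eqN (AN.snd (AN.var 0)) ?_
  refine AN.natRec (a := fun v _ => v 1)
    (h := fun _ w _ V => sInf {b | b ∈ V 0 ∧ Nat.pair b w ∈ V 1})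
    (AN.var 1) ?_ (AN.fst (AN.var 0))
  aesop (config := { enableSimp := false })

theorem as_R : AS (fun _ V => {x | x ∈ V 0 ∧ x.unpair.1 ≠ x.unpair.2}) := by
  aesop (config := { enableSimp := false })

theorem as_B : AS (fun _ V => {x | ∃ k, Nat.pair k x ∈ V 0}) := by
  aesop (config := { enableSimp := false })

/-- minimal elements from the absence of descending sequences -/
theorem minU {U : Set (Set ℕ)} (hA : ArClosed U) {R : Set ℕ} (hR : R ∈ U)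
    (hD : ∀ f ∈ U, ¬ Desc f R) (B : Set ℕ) (hB : B ∈ U) (hne : B.Nonempty) :
    ∃ x ∈ B, ∀ y ∈ B, Nat.pair y x ∉ {x | x ∈ R ∧ x.unpair.1 ≠ x.unpair.2} := by
  have hR' : {x | x ∈ R ∧ x.unpair.1 ≠ x.unpair.2} ∈ U :=
    as_R.closed hA (fun _ => 0) (fun _ => R) fun _ => hR
  generalize hR0 : {x | x ∈ R ∧ x.unpair.1 ≠ x.unpair.2} = R' at hR'
  by_contra hcon
  push Not at hcon
  obtain ⟨a, ha⟩ := hne
  let f : ℕ → ℕ := fun n => Nat.rec (motive := fun _ => ℕ) a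
    (fun _ w => sInf {b | b ∈ B ∧ Nat.pair b w ∈ R'}) n
  have hf1 : ∀ n, f (n + 1) = sInf {b | b ∈ B ∧ Nat.pair b (f n) ∈ R'} := fun n => rfl
  have hne' : ∀ x ∈ B, ({b | b ∈ B ∧ Nat.pair b x ∈ R'} : Set ℕ).Nonempty := by
    intro x hx
    obtain ⟨y, hy, hyx⟩ := hcon x hx
    exact ⟨y, hy, hyx⟩
  have hfB : ∀ n, f n ∈ B := by
    intro n
    induction n with
    | zero => exact ha
    | succ n ih =>
      rw [hf1]
      exact (Nat.sInf_mem (hne' _ ih)).1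
  have hfR : ∀ n, Nat.pair (f (n + 1)) (f n) ∈ R' := by
    intro n
    rw [hf1]
    exact (Nat.sInf_mem (hne' _ (hfB n))).2
  have hfU : {x | x.unpair.2 = f x.unpair.1} ∈ U := by
    refine as_rec.closed hA (fun _ => a) (sc B (fun _ => R')) ?_
    intro i
    rcases i with _ | i
    · exact hB
    · exact hR'
  refine hD _ hfU ⟨fun k => ⟨f k, by simp⟩, fun k x y hx hy => ?_⟩
  simp only [Set.mem_setOf_eq, Nat.unpair_pair] at hx hy
  rw [hx, hy]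
  have h1 := hfR k
  rw [← hR0] at h1
  obtain ⟨h2, h3⟩ := h1
  simp only [Nat.unpair_pair] at h3
  exact ⟨h2, h3⟩

end S8_PreD

theorem tPreD (h1 : S_UniG) (h2 : S_E5U) (h3 : S_Br8) (h4 : Pool.Agent.Lib.Z2.S_Pres)
    (h5 : Pool.Agent.Lib.Z2.S_Z2) : S_PreD := by
  intro M U C hU hcnt G hG R hR hD f hf hdesc
  haveI := hU.good
  have hA := (h2 M U C hU).1
  have hUni := h1 M U C hU hcnt
  have hN : ArClosed (NN (SU U C) G) :=
    S8_PreD.mod2_arc (((h3 _ ⟨f, hf⟩).1).1 (h5 (SU U C) Gam hUni G hG))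
  have hR' : {x | x ∈ R ∧ x.unpair.1 ≠ x.unpair.2} ∈ U :=
    S8_PreD.as_R.closed hA (fun _ => 0) (fun _ => R) fun _ => hR
  have hB : {x | ∃ k, Nat.pair k x ∈ f} ∈ NN (SU U C) G :=
    S8_PreD.as_B.closed hN (fun _ => 0) (fun _ => f) fun _ => hf
  obtain ⟨x0, hx0⟩ := hdesc.1 0
  obtain ⟨x, ⟨k, hkx⟩, hmin⟩ := h4 (SU U C) Gam hUni G hG _ hR' (S8_PreD.minU hA hR hD)
    {x | ∃ k, Nat.pair k x ∈ f} hB ⟨x0, 0, hx0⟩
  obtain ⟨y, hy⟩ := hdesc.1 (k + 1)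
  obtain ⟨h6, h7⟩ := hdesc.2 k x y hkx hy
  refine hmin y ⟨k + 1, hy⟩ ⟨h6, ?_⟩
  simp only [Nat.unpair_pair]
  exact h7

end B8d
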