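import Pool.Agent.Lib.MP_8dbd20_lc.S8.Spec
import Pool.Agent.Lib.Z2.Un.D

/-!
# MP_8dbd20_lc, section 8: `sg` is arithmetical
-/

namespace B8d

open Pool.Agent.Lib.Z2 (sg tr)

namespace S8_SgA

theorem ar_prim (h1 : S_Br1) {p : ℕ → ℕ → Prop} (hp : PrimrecRel p) :
    Ar (fun v _ => p (v 0) (v 1)) := by
  classical
  have hf : Primrec (fun n : ℕ => if p n.unpair.1 n.unpair.2 then 1 else 0) :=
    Primrec.ite (hp.comp (Primrec.fst.comp Primrec.unpair) (Primrec.snd.comp Primrec.unpair))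
      (Primrec.const 1) (Primrec.const 0)
  obtain ⟨c, hc⟩ := Pool.Agent.Lib.Z2.exists_code_nat hf
  refine (Ar.s20 (R := fun x n => x ∈ c.eval n) (h1 c) (AN.const 1)
    (AN.pair (AN.var 0) (AN.var 1))).congr fun v V => ?_
  rw [hc, Nat.unpair_pair, Part.mem_some_iff]
  by_cases h : p (v 0) (v 1)
  · simp [h]
  · simp [h]

/-- the list coded by a number -/
def lst (x : ℕ) : List ℕ := (Encodable.decode (α := List ℕ) x).getD []

theorem lst_prim : Primrec lst :=
  Primrec.option_getD.comp Primrec.decode (Primrec.const [])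

theorem lst_enc (l : List ℕ) : lst (Encodable.encode l) = l := by
  unfold lst
  rw [Encodable.encodek]
  rfl

theorem q2 : PrimrecRel (fun j x : ℕ => j ∈ lst x) :=
  (Pool.Agent.Lib.Z2.primrec_mem (T := ℕ)).comp Primrec.fst (lst_prim.comp Primrec.snd)

theorem q1 : PrimrecRel (fun k x : ℕ => Encodable.encode (lst x) = x ∧
    lst x = (List.range k).filter (fun j => decide (j ∈ lst x))) := by
  have h2 := (Pool.Agent.Lib.Z2.primrec_mem (T := ℕ)).listFilter
  have h3 : Primrec (fun x : ℕ × ℕ =>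
      (List.range x.1).filter (fun j => decide (j ∈ lst x.2))) :=
    h2.comp (Primrec.list_range.comp Primrec.fst) (lst_prim.comp Primrec.snd)
  have h4 : PrimrecPred (fun x : ℕ × ℕ => Encodable.encode (lst x.2) = x.2) :=
    Primrec.eq.comp (Primrec.encode.comp (lst_prim.comp Primrec.snd)) Primrec.snd
  have h5 : PrimrecPred (fun x : ℕ × ℕ =>
      lst x.2 = (List.range x.1).filter (fun j => decide (j ∈ lst x.2))) :=
    Primrec.eq.comp (lst_prim.comp Primrec.snd) h3
  exact h4.and h5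

theorem an_tr (h1 : S_Br1) : AN (fun v V => Encodable.encode (tr (V 0) (v 0))) := by
  refine AN.ofR (R := fun n v V => (Encodable.encode (lst n) = n ∧
    lst n = (List.range (v 0)).filter (fun j => decide (j ∈ lst n))) ∧
      ∀ j < v 0, (j ∈ lst n ↔ j ∈ V 0)) ?_ ?_
  · refine Ar.and ?_ ?_
    · exact Ar.s20 (R := fun k x : ℕ => Encodable.encode (lst x) = x ∧
        lst x = (List.range k).filter (fun j => decide (j ∈ lst x))) (ar_prim h1 q1)
        (AN.var 1) (AN.var 0)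
    · refine Ar.ballN (R := fun j v V => (j ∈ lst (v 0) ↔ j ∈ V 0)) (AN.var 1) ?_
      exact (Ar.s20 (R := fun j x : ℕ => j ∈ lst x) (ar_prim h1 q2) (AN.var 0)
        (AN.var 1)).iff (Ar.memv 0 0)
  · intro n v V
    constructor
    · rintro rfl
      rw [lst_enc]
      obtain ⟨h2, h3⟩ := (Pool.Agent.Lib.Z2.tr_eq_iff (V 0) (v 0) _).1 rfl
      exact ⟨⟨rfl, h2⟩, h3⟩
    · rintro ⟨⟨h2, h3⟩, h4⟩
      rw [(Pool.Agent.Lib.Z2.tr_eq_iff (V 0) (v 0) (lst n)).2 ⟨h3, h4⟩, h2]

end S8_SgA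

open S8_SgA in
theorem tSgA (h1 : S_Br1) : S_SgA := by
  have h2 : AN (fun v V => Encodable.encode (tr (V 1) (v 0))) :=
    (an_tr h1).ren (fun i => i) (fun j => j + 1)
  exact AN.pair (AN.var 0) (AN.pair (an_tr h1) h2)

end B8d
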