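import Pool.Agent.Lib.MP_8dbd20_lc.Hi.Spec2
import Pool.Agent.Lib.Z2.Fo.SpecC

/-!
# MP_8dbd20_lc (C45), section 8: absoluteness, failure of dependent choice, final theorem

Part B: normal form of arithmetical relations, Kleene-Brouwer orders, `BetaI`.
Part D: the instance of `Π¹₂`-DC; the facts on the generic model `N` (structure `GenM`);
totality, no chain; the final theorem.

Framework 1 (namespace `B8d`): `Ar`, `AN`, `AS` (closed by `aesop (config := { enableSimp := false })`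
after unfolding), `Ar.subst`, `AN.natRec`, `exists_beta`, see `Frame*.lean`.
-/

set_option linter.unusedVariables false

namespace B8d

open Pool.Agent.Lib.Z2 (Str Dfn DF Fm IsZ2 HasAC HasPi12DC IsBeta NN NT IsI Gen gen inn Node Cond sg
  Uni)

/-! ## Part B: absoluteness of well-foundedness gives absoluteness of `Σ¹₁` formulas -/

/-- canonical code of the finite sequence `g 0, ..., g (m-1)` -/
noncomputable def cd (m : ℕ) (g : ℕ → ℕ) : ℕ := Nat.pair m (sInf {b | ∀ i < m, Nat.beta b i = g i})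
/-- length -/
def len (s : ℕ) : ℕ := s.unpair.1
/-- entries -/
def ent (s i : ℕ) : ℕ := Nat.beta s.unpair.2 i

/-- Sq. Finite sequences.
PROOF. `{b | ∀ i < m, Nat.beta b i = g i}` is not empty (`exists_beta`), `Nat.sInf_mem`. If `g`, `g'`
agree below `m` the two sets are equal. -/
def S_Sq : Prop := (∀ m g, len (cd m g) = m) ∧ (∀ m g i, i < m → ent (cd m g) i = g i) ∧
  ∀ m g g', (∀ i < m, g i = g' i) → cd m g = cd m g'

/-- closed witness form of a relation; the first set variable is given as `{n | x n = 0}` -/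
def NF (R : (ℕ → ℕ) → (ℕ → Set ℕ) → Prop) : Prop :=
  ∃ P : (ℕ → ℕ) → (ℕ → Set ℕ) → Prop, Ar P ∧ ∀ (v : ℕ → ℕ) (V : ℕ → Set ℕ) (x : ℕ → ℕ),
    R v (sc {n | x n = 0} V) ↔ ∃ g : ℕ → ℕ, ∀ m, P (nc (cd m x) (nc (cd m g) v)) V

/-- NFa. Atomic relations and their negations have a closed witness form.
PROOF. `fls`, `add`, `mul`, `mem i (j+1)`: the relation does not depend on `x`: take
`P v' V = (the relation at (fun i => v' (i + 2)), V)`, `Ar.subst`. `mem i 0`: the relation is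
`x (v i) = 0`; take `P v' V = (v' (i+2) < len (v' 0) → ent (v' 0) (v' (i+2)) = 0)` (use `m = v i + 1`),
and `≠ 0` for the negation (`S_Sq`). -/
def S_NFa : Prop := ∀ φ : F, (φ = .fls ∨ (∃ i j k, φ = .add i j k) ∨ (∃ i j k, φ = .mul i j k) ∨
    ∃ i j, φ = .mem i j) →
  NF (fun v V => eval ∅ ∅ φ v V) ∧ NF (fun v V => ¬ eval ∅ ∅ φ v V)

/-- NFb. Conjunctions and disjunctions.
PROOF. Let `P₁, P₂` belong to `R`, `S`. Write `a = v' 0`, `b = v' 1`, `w = fun i => v' (i + 2)`.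
Conjunction: the witness `g` codes `g₁ i = g (2 i)`, `g₂ i = g (2 i + 1)`; with `h = len a / 2`:
`P v' V = P₁ (nc (cd h (ent a)) (nc (cd h (fun i => ent b (2 * i))) w)) V ∧
P₂ (nc (cd h (ent a)) (nc (cd h (fun i => ent b (2 * i + 1))) w)) V`; `a = cd m x`, `b = cd m g`, and
`2 i + 1 < m` for `i < h`, so by `S_Sq` these are `cd h x`, `cd h g₁`, `cd h g₂`; every `h` occurs
(`m = 2 h`). Disjunction: `g 0 = 0` means: `R` with the witness `g (· + 1)`; `g 0 ≠ 0` means: `S`; with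
`h = len a - 1`: `P v' V = (1 ≤ len a → (ent b 0 = 0 → P₁ (nc (cd h (ent a)) (nc (cd h (fun i =>
ent b (i + 1))) w)) V) ∧ (ent b 0 ≠ 0 → P₂ ...))`. Arithmetical: `Ar.subst`. -/
def S_NFb : Prop := ∀ R S : (ℕ → ℕ) → (ℕ → Set ℕ) → Prop, NF R → NF S →
  NF (fun v V => R v V ∧ S v V) ∧ NF (fun v V => R v V ∨ S v V)

/-- NFc. Number quantifiers.
PROOF. Notation of NFb. Universal: the witness `g` codes `g_n i = g ⟨n, i⟩`:
`P v' V = ∀ n h, h ≤ len a → (∀ i < h, Nat.pair n i < len a) →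
P_R (nc (cd h (ent a)) (nc (cd h (fun i => ent b (Nat.pair n i))) (nc n w))) V`; for given `n`, `h` a
large `m` satisfies the two conditions. Existential: `g 0` is the number, `g (· + 1)` its witness:
`P v' V = (1 ≤ len a → P_R (nc (cd h (ent a)) (nc (cd h (fun i => ent b (i + 1))) (nc (ent b 0) w))) V)`,
`h = len a - 1`. -/
def S_NFc : Prop := ∀ R : (ℕ → ℕ) → (ℕ → Set ℕ) → Prop, NF R →
  NF (fun v V => ∀ n, R (nc n v) V) ∧ NF (fun v V => ∃ n, R (nc n v) V)

/-- NFd. Every arithmetical relation has a closed witness form.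
PROOF. Induction on an arithmetical formula `φ`: `NF (eval ∅ ∅ φ)` and `NF (¬ eval ∅ ∅ φ)`
simultaneously, by NFa, NFb, NFc (`¬ (φ ∧ ψ) ↔ ¬ φ ∨ ¬ ψ`, `¬ ∀ ↔ ∃ ¬`); `NF` respects equivalence. -/
def S_NFd : Prop := ∀ R, Ar R → NF R

/-- the canonical codes all of whose restrictions are in `T` -/
def Td (T : Set ℕ) : Set ℕ := {s | s = cd (len s) (ent s) ∧ ∀ m ≤ len s, cd m (ent s) ∈ T}
/-- the Kleene-Brouwer order of sequences -/
def kbl (s t : ℕ) : Prop := (len t ≤ len s ∧ ∀ i < len t, ent s i = ent t i) ∨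
  ∃ i, i < len s ∧ i < len t ∧ (∀ j < i, ent s j = ent t j) ∧ ent s i < ent t i
/-- the Kleene-Brouwer order of the tree -/
def KB (T : Set ℕ) : Set ℕ := {x | x.unpair.1 ∈ Td T ∧ x.unpair.2 ∈ Td T ∧ kbl x.unpair.1 x.unpair.2}
/-- `g` is a branch of `T` -/
def Bra (g : ℕ → ℕ) (T : Set ℕ) : Prop := ∀ m, cd m g ∈ T
/-- graph of a function -/
def gr (g : ℕ → ℕ) : Set ℕ := {x | x.unpair.2 = g x.unpair.1}

/-- KBl. The Kleene-Brouwer order is an arithmetical linear order.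
PROOF. `AS`: unfold, aesop. `LinO`: for canonical codes `s = t` iff `len s = len t` and the entries agree
(`S_Sq`). Reflexive, antisymmetric, transitive, total: compare the first place where the sequences
differ (`Nat.find`), or one extends the other. -/
def S_KBl : Prop := AS (fun _ V => KB (V 0)) ∧ ∀ T, LinO (KB T)

/-- KBb. A branch gives a descending sequence.
PROOF. `f = {x | x.unpair.2 = cd x.unpair.1 g}`: `cd k g ∈ Td T`, and `cd (k+1) g` extends `cd k g`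
properly. -/
def S_KBb : Prop := ∀ T g, Bra g T → ∃ f, Desc f (KB T)

/-- KBc. A descending sequence gives a branch.
PROOF. `s k = sInf {x | ⟨k, x⟩ ∈ f}`, so `s (k+1) <_KB s k` in `Td T`, and `s` is strictly decreasing, in
particular injective. Claim: for every `m` there is `k₀` such that for all `k ≥ k₀`: `m ≤ len (s k)` and
`s k`, `s k₀` agree below `m`. Induction on `m`: for `k ≥ k₀` the `s k` extend the same sequence `σ` of length
`m`; at most one of them has length `m` (injectivity, canonical codes), so from some `k₁` on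
`m < len (s k)`; then `ent (s (k+1)) m ≤ ent (s k) m` (definition of `kbl`, since they agree below `m`),
so the entry at `m` is eventually constant. Let `g m` be the eventual value of `ent (s k) m`: the set
term `gr g = {x | ∃ k₀, ∀ k ≥ k₀, x.unpair.1 < len (s k) ∧ ent (s k) x.unpair.1 = x.unpair.2}` is
arithmetical in `f`, so `gr g ∈ K`. `cd m g = cd m (ent (s k))` for large `k`, which is in `T`
(`s k ∈ Td T`, `m ≤ len (s k)`). -/
def S_KBc : Prop := ∀ (T : Set ℕ) (K : Set (Set ℕ)), ArClosed K → ∀ f ∈ K, Desc f (KB T) →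
  ∃ g : ℕ → ℕ, Bra g T ∧ gr g ∈ K

/-- Bet. If well-foundedness of linear orders is absolute for `K` then `Σ¹₁` formulas are.
PROOF. Let `R` be arithmetical, `v`, `V i ∈ K`, and `R v (sc X V)` true. `S_NFd`: `P`. Let
`T = {s | P (nc (cd (len s) (fun i => (ent s i).unpair.1)) (nc (cd (len s) (fun i =>
(ent s i).unpair.2)) v)) V} ∈ K` (arithmetical in `V`, `Ar.subst`). Put `x n = 0` if `n ∈ X`, else `1`; take
`g` from `NF`; `h i = Nat.pair (x i) (g i)` is a branch of `T` (`S_Sq`: `cd m` depends only on the values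
below `m`). By KBb `KB T ∈ K` has a descending sequence, it is a linear order (KBl), so by hypothesis it
has one in `K`; KBc gives a branch `h'` of `T` with `gr h' ∈ K`. With `x' i = (h' i).unpair.1`,
`g' i = (h' i).unpair.2` we get `R v (sc {n | x' n = 0} V)`, and `{n | x' n = 0} ∈ K` (arithmetical in
`gr h'`). -/
def S_Bet : Prop := ∀ K : Set (Set ℕ), K.Nonempty → ArClosed K →
  (∀ R ∈ K, LinO R → (∀ f ∈ K, ¬ Desc f R) → ∀ f, ¬ Desc f R) → BetaI K

/-! ## Part D: the instance of dependent choice -/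

/-- the certificate of the pair `(y, z)` is violated at `c` -/
def Vio (c y z : Set ℕ) : Prop := {k | k ∈ z ∧ sg k z y ∈ Gam c}.Infinite

/-- the pair `(y, z)` is certified with respect to the class `C` -/
def Crt (C : Set (Set ℕ)) (y z : Set ℕ) : Prop := z.Infinite ∧ ∀ c ∈ C, ¬ Vio c y z

/-- the same with the hierarchy codes of `K` -/
def CrtK (K : Set (Set ℕ)) (y z : Set ℕ) : Prop :=
  z.Infinite ∧ ∀ Z ∈ K, HCin K Z → ∀ i ∈ fld Z, ¬ Vio (sec Z (i + 1)) y z

/-- `W` is a hierarchy code of `K` with an entry at which the certificate of `(y, z)` is violated -/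
def WitK (K : Set (Set ℕ)) (W y z : Set ℕ) : Prop :=
  HCin K W ∧ ∃ i ∈ fld W, Vio (sec W (i + 1)) y z

/-- the relation `φ(X, Y)` of the instance of dependent choice, in the model `K` -/
def PhK (K : Set (Set ℕ)) (X Y : Set ℕ) : Prop :=
  CrtK K (sec Y 0) (sec Y 1) ∧
    (sec Y 0 = sec X 1 ∨ (sec X 1).Finite ∨ WitK K (sec Y 2) (sec X 0) (sec X 1))

/-- the arithmetical matrix of `φ(X, Y)` -/
def Mtx (X Y A B : Set ℕ) : Prop :=
  (sec Y 1).Infinite ∧
  (Local (sec A 0) → Desc B (sec (sec A 0) 0) ∨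
    ∀ i ∈ fld (sec A 0), ¬ Vio (sec (sec A 0) (i + 1)) (sec Y 0) (sec Y 1)) ∧
  (sec Y 0 = sec X 1 ∨ (sec X 1).Finite ∨
    (Local (sec Y 2) ∧ ¬ Desc (sec A 1) (sec (sec Y 2) 0) ∧
      ∃ i ∈ fld (sec Y 2), Vio (sec (sec Y 2) (i + 1)) (sec X 0) (sec X 1)))

/-- SgA. `sg` is arithmetical.
PROOF. `sg k z y = ⟨k, ⟨encode (tr z k), encode (tr y k)⟩⟩`. `m = encode (tr z k)` iff `Q₁ k m` and for all
`j < k`: `Q₂ j m ↔ j ∈ z`, where `Q₂ j m` = '`j` is in the list coded by `m`', `Q₁ k m` = '`m` codes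
`(List.range k).filter (fun j => Q₂ j m)`' (`tr_eq_iff`, `primrec_mem` in `Pool.Agent.Lib.Z2.Un.D`). These
are primitive recursive; primitive recursive functions and predicates of numbers are arithmetical by
`S_Br1` (`f n = x ↔ x ∈ c.eval n` for a code `c` of `f`, `exists_code_nat` in `Z2/Base.lean`;
`Encodable.encode` on `ℕ × ℕ` is `Nat.pair`). `AN.ofR` / `AN` of a graph. -/
def S_SgA : Prop := AN (fun v V => sg (v 0) (V 0) (V 1))

/-- MtxA. The matrix is arithmetical.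
PROOF. `Z.Infinite ↔ ∀ m, ∃ k ∈ Z, m < k` (`Set.infinite_of_not_bddAbove`, ... ; for `ℕ`:
`Set.infinite_iff_exists_gt` or similar), `Z.Finite ↔ ¬ Z.Infinite`; `S_L0`, `S_L0b` (`Local`, `Desc`,
`Gam`), `S_SgA`; aesop after registering or `Ar.s21` etc. -/
def S_MtxA : Prop := Ar (fun v V => Mtx (V 3) (V 2) (V 1) (V 0))

/-- MtxF. The matrix as a formula of the standard language.
PROOF. `S_MtxA` gives an arithmetical formula of framework 1, second part of `S_Br7`; `eval_arith` to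
pass from `∅` to `M`. -/
def S_MtxF : Prop := ∃ θ : Fm, θ.Ar ∧ ∀ (M : Set (Set ℕ)) (e : ℕ → ℕ) (E : ℕ → Set ℕ),
  θ.Sat M e E ↔ Mtx (E 3) (E 2) (E 1) (E 0)

/-- MtxS. The meaning of `∀ A ∃ B Mtx` in `K`.
PROOF. (→) `CrtK`: for `Z ∈ K` with `HCin K Z` use `A` with `sec A 0 = Z`, `sec A 1 = ∅` (in `K`:
`ArClosed`): the witness `B ∈ K` is not a descending sequence. If `sec Y 0 ≠ sec X 1` and `sec X 1` is
infinite: for every `f ∈ K` use `A` with `sec A 1 = f`, `sec A 0 = ∅`, so `Local (sec Y 2)`, not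
`Desc f _`, and the violation. (←) Given `A`: if `Local (sec A 0)` and some `f ∈ K` is descending in
`sec (sec A 0) 0` take `B = f`; otherwise `B = ∅`, and `HCin K (sec A 0)` if `Local (sec A 0)`. -/
def S_MtxS : Prop := ∀ K : Set (Set ℕ), K.Nonempty → ArClosed K → ∀ X ∈ K, ∀ Y ∈ K,
  ((∀ A ∈ K, ∃ B ∈ K, Mtx X Y A B) ↔ PhK K X Y)

/-! ### The generic model -/

/-- `b_{s⁻}` (empty for the root) -/
def gp (G : Cond → Prop) (s : Node) : Set ℕ := {k | s ≠ [] ∧ k ∈ gen G s.tail}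

/-- (Unq) SECTION 7, delivered by helper33: certified pairs with names supported in `T` are edges of
`T`; all edges are certified; the generic reals are different. -/
def S_Unq : Prop := ∀ M U C : Set (Set ℕ), Univ M U C → U.Countable → ∀ G, Gen (SU U C) Gam G →
  (∀ T, IsI (SU U C) T → ∀ y ∈ NT (SU U C) G T, ∀ z ∈ NT (SU U C) G T, Crt C y z →
    ∃ s, inn T s ∧ z = gen G s ∧ y = gp G s) ∧
  (∀ s, Crt C (gp G s) (gen G s)) ∧ ∀ s t, gen G s = gen G t → s = t

/-- UniG. The interface of the forcing part from the interface of the hierarchy part.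
PROOF. `pm`: `rfl`. `comp`: `Univ.comp`. `ac`: `Univ.ac` for the predicate
`P n X ∨ ((¬ ∃ X' ∈ U, P n X') ∧ X = ∅)` (`Dfn.or`, `Dfn.exR`, ...). `noSurj`: `Univ.noSurj` and push_neg.
`gm`: `DF.set` (validity of `Gam X` for `X ∈ U`: `Univ.comp` with the parameter `X`, `Dfn.comp`;
definability: `S_dfnGam`). `Good`: `Univ.good`. -/
def S_UniG : Prop := ∀ M U C : Set (Set ℕ), Univ M U C → U.Countable → Uni (SU U C) Gam

/-- PreD. Preservation of well-foundedness, in the form with descending sequences.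
PROOF. Let `R ∈ U` have no descending sequence in `U`, `R' = {x ∈ R | x.unpair.1 ≠ x.unpair.2} ∈ U`. Every
nonempty `B ∈ U` has an element `x` with no `y ∈ B`, `⟨y, x⟩ ∈ R'`: otherwise the recursion `f 0` = an
element of `B`, `f (n+1)` = the least `y ∈ B` with `⟨y, f n⟩ ∈ R'` gives a descending sequence, arithmetical in
`B`, `R'` (`AN.natRec`, `AN.sInf`; compare the proof of `S_L1`), so in `U` (`S_E5U`). By `Z2.S_Pres` the
same holds for the nonempty `B ∈ N`. If `f ∈ N` is descending in `R` then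
`B = {x | ∃ k, ⟨k, x⟩ ∈ f} ∈ N` (`N` is a model of `Z_2`: `Z2.S_Z2`, `S_Br8`, arithmetical formulas) is
nonempty and has no minimal element: contradiction. -/
def S_PreD : Prop := ∀ M U C : Set (Set ℕ), Univ M U C → U.Countable → ∀ G, Gen (SU U C) Gam G →
  ∀ R ∈ U, (∀ f ∈ U, ¬ Desc f R) → ∀ f ∈ NN (SU U C) G, ¬ Desc f R

/-- GenU. The generic reals on a support, uniformly.
PROOF. As for `Z2.S_GenR` (see its docstring), with one name: `sec ρ (pair (pair (encode s) k) i) =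
cdc (t, [])` if `encode t = i`, `IsCond S (t, [])`, `inn T s`, all nodes of `t` are suffixes of `s`,
`(s, k)` is a bit of `t`; `∅` otherwise. It is in `U` (`Uni.comp`) and supported in `T` (suffixes of `s`
are in `T`). If `p ∈ G`, `(s, k) ∈ bts p`: let `p'` be `p` with the nodes and bits restricted to the
suffixes of `s` and `fs = []`: `p ≤ p'`, so `p' ∈ G`, and `p'` is an entry. The converse is clear. -/
def S_GenU : Prop := ∀ (S : Str) [GoodS S] (Gm : Set ℕ → Set ℕ), Uni S Gm → ∀ G, Gen S Gm G →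
  ∀ T, IsI S T →
  {x | ∃ (s : Node) (k : ℕ), inn T s ∧ k ∈ gen G s ∧ x = Nat.pair (Encodable.encode s) k} ∈ NT S G T

/-- The facts on the generic model `N = NN (SU U C) G` used below. -/
structure GenM (M U C : Set (Set ℕ)) (G : Cond → Prop) : Prop where
  univ : Univ M U C
  mod : Mod2 (NN (SU U C) G)
  arc : ArClosed (NN (SU U C) G)
  sub : U ⊆ NN (SU U C) G
  pres : ∀ R ∈ U, (∀ f ∈ U, ¬ Desc f R) → ∀ f ∈ NN (SU U C) G, ¬ Desc f R
  nol : ¬ ∃ L ∈ NN (SU U C) G, ∀ c ∈ C, ∃ n, c = sec L n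
  entC : ∀ c, c ∈ C ↔ ∃ Z ∈ NN (SU U C) G, HCin (NN (SU U C) G) Z ∧ c ∈ Ent Z
  sup : ∀ X ∈ NN (SU U C) G, ∃ T, IsI (SU U C) T ∧ X ∈ NT (SU U C) G T
  sup2 : ∀ X ∈ NN (SU U C) G, ∀ Y ∈ NN (SU U C) G, ∃ T, IsI (SU U C) T ∧
    X ∈ NT (SU U C) G T ∧ Y ∈ NT (SU U C) G T
  supN : ∀ T, IsI (SU U C) T → ∀ X ∈ NT (SU U C) G T, X ∈ NN (SU U C) G
  supS : ∀ T, IsI (SU U C) T → ∀ X ∈ NT (SU U C) G T, ∀ n, sec X n ∈ NT (SU U C) G T
  genN : ∀ s, gen G s ∈ NN (SU U C) G
  genU : ∀ T, IsI (SU U C) T →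
    {x | ∃ (s : Node) (k : ℕ), inn T s ∧ k ∈ gen G s ∧ x = Nat.pair (Encodable.encode s) k} ∈
      NN (SU U C) G
  noBr : ∀ T, IsI (SU U C) T → ∀ B ∈ NN (SU U C) G, (∀ s : Node, inn B s → inn T s) →
    (∃ s : Node, inn B s) → ∃ s : Node, inn B s ∧ ∀ a, ¬ inn B (a :: s)
  unq : ∀ T, IsI (SU U C) T → ∀ y ∈ NT (SU U C) G T, ∀ z ∈ NT (SU U C) G T, Crt C y z →
    ∃ s, inn T s ∧ z = gen G s ∧ y = gp G s
  edge : ∀ s, Crt C (gp G s) (gen G s)
  inj : ∀ s t, gen G s = gen G t → s = t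

/-- GenM. PROOF. `S_UniG`; `GoodS` from `Univ.good`. `mod`: `Z2.S_Z2`, `S_Br8` (nonempty: `∅ ∈ U ⊆ N`);
`arc`: arithmetical formulas are formulas (`eval_arith`); `sub`: `Z2.S_Nms`; `pres`: `S_PreD`; `nol`:
`Z2.S_NoL`; `entC`: `S_LemEC` for `K = N`; `sup`, `sup2`, `supN`: `Z2.S_Nms`; `supS`: `Z2.S_NTs`; `genN`:
`Z2.S_GenR` and a support containing `s` (`Z2.S_IFin`); `genU`: `S_GenU`; `noBr`: `Z2.S_PresT`; `unq`,
`edge`, `inj`: `S_Unq`. -/
def S_GenM : Prop := ∀ M U C : Set (Set ℕ), Univ M U C → U.Countable → ∀ G, Gen (SU U C) Gam G →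
  GenM M U C G

/-- Tot. Totality of `φ`.
PROOF. `N = NN (SU U C) G`. By `entC` `CrtK N y z ↔ Crt C y z` (an entry is `sec Z (i+1)`, `i ∈ fld Z`).
CASE `Crt C (sec X 0) (sec X 1)`: by `sup`, `supS`, `unq` there is `s` with `sec X 1 = gen G s`. Let
`t = 0 :: s`: `gp G t = gen G s`. Take `Y` with `sec Y 0 = gen G s`, `sec Y 1 = gen G t` (in `N` by `arc`),
`edge t`. CASE `sec X 1` finite, or `Vio c (sec X 0) (sec X 1)` for some `c ∈ C`: take `W = ∅`, resp. (by
`Univ.hc`) `W ∈ U` with `HCin M W`, `c ∈ Ent W`; `HCin N W`: no descending sequence in `M ⊇ U`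
(`Univ.um`), so none in `U`, none in `N` (`pres`). Take `Y` with `sec Y 0 = ∅ = gp G []`,
`sec Y 1 = gen G []`, `sec Y 2 = W`, `edge []`. -/
def S_Tot : Prop := ∀ M U C G, GenM M U C G → ∀ X ∈ NN (SU U C) G, ∃ Y ∈ NN (SU U C) G,
  PhK (NN (SU U C) G) X Y

/-- Chn. There is no chain.
PROOF. Let `Z ∈ N` be a chain, `Z ∈ NT T` (`sup`), `Z_n = sec Z n`, `y_n = sec Z_n 0`, `z_n = sec Z_n 1` in
`NT T` (`supS`). For `n ≥ 1` `CrtK N y_n z_n` (first clause of `PhK`), i.e. `Crt C y_n z_n` (`entC`), so by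
`unq` there is `s_n` in `T` with `z_n = gen G s_n`, `y_n = gp G s_n`. For `n ≥ 1` the second clause of
`PhK N Z_n Z_{n+1}`: `z_n` is infinite; `WitK N _ y_n z_n` contradicts `CrtK N y_n z_n`; so
`y_{n+1} = z_n`, i.e. `gp G s_{n+1} = gen G s_n`, which is infinite (`edge`), so `s_{n+1} ≠ []` and
`gen G s_{n+1}.tail = gen G s_n`, so `s_{n+1}.tail = s_n` (`inj`). Let `D` be the real of `genU` and
`B = {x | x ∈ T ∧ ∃ n ≥ 1, sec D x = z_n}`: in `N` (`arc`, `T ∈ U ⊆ N`). `inn B s ↔ inn T s ∧ ∃ n ≥ 1,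
gen G s = gen G s_n` (`sec D (encode s) = gen G s` for `s` in `T`, `Encodable.encode_injective`), i.e.
`s = s_n`. So `B` is inside `T`, nonempty, and every element `s_n` has the child `s_{n+1} = a :: s_n` in
`B`: contradiction to `noBr`. -/
def S_Chn : Prop := ∀ M U C G, GenM M U C G → ¬ ∃ Z ∈ NN (SU U C) G, ∀ n,
  PhK (NN (SU U C) G) (sec Z n) (sec Z (n + 1))

/-- NoDC. PROOF. `θ` from `S_MtxF`; `HasPi12DC` for `θ`, `e = 0`, `E = ∅`. Unfold `DCfor`, `Fm.exS`, `Fm.Sat`: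
`(.allS (.exS θ)).Sat N e (ex Y (ex X E)) ↔ ∀ A ∈ N, ∃ B ∈ N, Mtx X Y A B ↔ PhK N X Y` (`S_MtxS`). Totality
`S_Tot`, then the chain contradicts `S_Chn`. -/
def S_NoDC : Prop := ∀ M U C G, GenM M U C G → ¬ HasPi12DC (NN (SU U C) G)

/-- isomorphism of the orders coded by `R` and `R'` -/
def IsoO (R R' : Set ℕ) (h : ℕ → ℕ) : Prop :=
  (∀ i, Nat.pair i i ∈ R → Nat.pair (h i) (h i) ∈ R') ∧
  (∀ i j, Nat.pair i i ∈ R → Nat.pair j j ∈ R → (Nat.pair i j ∈ R ↔ Nat.pair (h i) (h j) ∈ R')) ∧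
  ∀ j, Nat.pair j j ∈ R' → ∃ i, Nat.pair i i ∈ R ∧ h i = j

/-- WO. The well-orders of `N` are isomorphic to well-orders of `U`.
PROOF. `S_LemE` for `K = N`, `R' = sec Z 0` (`Local Z` gives `LinO`), `U` is closed under sections
(`S_E5U`). -/
def S_WO : Prop := ∀ M U C G, GenM M U C G → ∀ R ∈ NN (SU U C) G, LinO R →
  (∀ f ∈ NN (SU U C) G, ¬ Desc f R) →
  ∃ R' ∈ U, LinO R' ∧ (∀ f ∈ M, ¬ Desc f R') ∧ ∃ h, gr h ∈ NN (SU U C) G ∧ IsoO R R' h

/-- BetN. If `M` is a beta-model then `N` is.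
PROOF. `S_Bet` for `K = N`: let `R ∈ N` be a linear order without descending sequence in `N`, `R'`, `h` from
`S_WO`. `BetaI M`: if some `f` is descending in `R' ∈ U ⊆ M` then some `f ∈ M` is (`Desc` is arithmetical,
`S_L0b`), contradiction; so there is none. If `f` is descending in `R` then
`{x | ∃ y, ⟨x.unpair.1, y⟩ ∈ f ∧ x.unpair.2 = h y}` is descending in `R'` (`h` is injective on the field
and preserves the order): contradiction. -/
def S_BetN : Prop := ∀ M U C G, GenM M U C G → BetaI M → BetaI (NN (SU U C) G)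

/-- countable elementary submodels, with elementarity (part of LS) -/
def S_LSe : Prop := ∀ M, Mod2 M → ∃ M' ⊆ M, M'.Countable ∧ Mod2 M' ∧ (BetaI M → BetaI M') ∧
  ∀ (φ : F) (v : ℕ → ℕ) (V : ℕ → Set ℕ), (∀ i, V i ∈ M') → (eval M' ∅ φ v V ↔ eval M ∅ φ v V)

/-- THE THEOREM. Every omega-model `M` of `Z_2` has an omega-model `N` of
`Z_2 + choice + ¬ Π¹₂-DC` such that every well-order in the sense of `N` is isomorphic to a well-order in
the sense of `M`; if `M` is a beta-model then so is `N`.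
PROOF. `S_Br8`: `Mod2 M`. `S_LSe`: `M'`. `S_Univ` for `M'`: `U = UM M'`, `C = CM M'`, `U ⊆ M'` countable.
`Z2.S_GenEx` (with `Z2.S_Triv`): `G`. `S_GenM`. `N = NN (SU U C) G`: `Z2.S_Z2`, `Z2.S_Ac`, `S_NoDC`,
`S_WO` (no descending sequence in `M'`, hence none in `M`, by elementarity for the formula
`∃ f Desc f R'`), `S_BetN`, `S_Br8`. -/
def S_Thm : Prop := ∀ M : Set (Set ℕ), M.Nonempty → IsZ2 M → ∃ N : Set (Set ℕ), N.Nonempty ∧
  IsZ2 N ∧ HasAC N ∧ ¬ HasPi12DC N ∧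
  (∀ R ∈ N, LinO R → (∀ f ∈ N, ¬ Desc f R) →
    ∃ R' ∈ M, LinO R' ∧ (∀ f ∈ M, ¬ Desc f R') ∧ ∃ h, gr h ∈ N ∧ IsoO R R' h) ∧
  (IsBeta M → IsBeta N)

end B8d
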