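import Pool.Agent.Lib.MP_8dbd20_lc.S8.Spec

/-!
# MP_8dbd20_lc, section 8: finite sequences
-/

namespace B8d

theorem tSq : S_Sq := by
  refine ⟨?_, ?_, ?_⟩
  · intro m g
    unfold len cd
    rw [Nat.unpair_pair]
  · intro m g i hi
    have hne : ({b | ∀ i < m, Nat.beta b i = g i} : Set ℕ).Nonempty := by
      obtain ⟨w, hw⟩ := exists_beta g m
      exact ⟨w, fun i hi => hw i hi.le⟩
    have h := Nat.sInf_mem hne
    unfold ent cd
    rw [Nat.unpair_pair]
    exact h i hi
  · intro m g g' h
    have e : ({b | ∀ i < m, Nat.beta b i = g i} : Set ℕ) = {b | ∀ i < m, Nat.beta b i = g' i} := by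
      ext b
      constructor
      · intro hb i hi
        rw [hb i hi, h i hi]
      · intro hb i hi
        rw [hb i hi, h i hi]
    unfold cd
    rw [e]

end B8d
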