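import Pool.Agent.Lib.MP_8dbd20_lc.S8.Spec

/-!
# MP_8dbd20_lc, section 8: the theorem (`S_Thm`)
-/

namespace B8d

open Pool.Agent.Lib.Z2 (NN NT IsI Gen gen inn Node Cond)

namespace S8_Thm

theorem noDesc (hL : S_L0b) {M M' : Set (Set ℕ)}
    (hel : ∀ (φ : F) (v : ℕ → ℕ) (V : ℕ → Set ℕ), (∀ i, V i ∈ M') →
      (eval M' ∅ φ v V ↔ eval M ∅ φ v V)) {R : Set ℕ} (hR : R ∈ M')
    (h : ∀ f ∈ M', ¬ Desc f R) : ∀ f ∈ M, ¬ Desc f R := by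
  obtain ⟨φ, ha, hφ⟩ := hL.2.2.1
  have key : ∀ K : Set (Set ℕ), eval K ∅ (.allS (.neg φ)) (fun _ => 0) (fun _ => R) ↔
      ∀ f ∈ K, ¬ Desc f R := by
    intro K
    refine forall_congr' fun X => imp_congr_right fun _ => not_congr ?_
    exact (eval_arith ha _ _ _ _ _ _).trans (hφ (fun _ => 0) (sc X fun _ => R)).symm
  exact (key M).1 ((hel _ _ _ fun _ => hR).1 ((key M').2 h))

end S8_Thm

theorem tThm (h0 : S_UniG) (h1 : S_Br8) (h2 : S_LSe) (h3 : S_Univ) (h4 : S_GenM) (h5 : S_NoDC)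
    (h6 : S_WO) (h7 : S_BetN) (h8 : S_L0b) (h9 : Pool.Agent.Lib.Z2.S_Z2)
    (h10 : Pool.Agent.Lib.Z2.S_Ac) (h11 : Pool.Agent.Lib.Z2.S_GenEx)
    (h12 : Pool.Agent.Lib.Z2.S_Triv) : S_Thm := by
  intro M hne hZ
  obtain ⟨M', hM', hcnt, hmod, hbeta, hel⟩ := h2 M (((h1 M hne).1).1 hZ)
  have hU := h3 M' hmod
  haveI := hU.good
  have hUc : (UM M').Countable := hcnt.mono hU.um
  have hUni := h0 M' (UM M') (CM M') hU hUc
  obtain ⟨G, hG, -⟩ := h11 (SU (UM M') (CM M')) Gam hUni _ (h12 (SU (UM M') (CM M')) Gam).1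
  have hg := h4 M' (UM M') (CM M') hU hUc G hG
  refine ⟨NN (SU (UM M') (CM M')) G, hg.mod.1, h9 _ Gam hUni G hG, h10 _ Gam hUni G hG,
    h5 M' _ _ G hg, ?_, ?_⟩
  · intro R hR hlin hdesc
    obtain ⟨R', hR', hl', hd', hh⟩ := h6 M' _ _ G hg R hR hlin hdesc
    exact ⟨R', hM' (hU.um hR'), hl', S8_Thm.noDesc h8 hel (hU.um hR') hd', hh⟩
  · intro hb
    exact ((h1 _ hg.mod.1).2).2 (h7 M' _ _ G hg (hbeta (((h1 M hne).2).1 hb)))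

end B8d
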