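import Pool.Agent.Lib.MP_8dbd20_lc.S8.Spec

/-!
# MP_8dbd20_lc, section 8: totality of the instance of dependent choice (`S_Tot`)
-/

namespace B8d

open Pool.Agent.Lib.Z2 (NN NT IsI Gen gen inn Node Cond)

namespace S8_Tot

theorem crt_iff {M U C : Set (Set ℕ)} {G : Cond → Prop} (h : GenM M U C G) (y z : Set ℕ) :
    CrtK (NN (SU U C) G) y z ↔ Crt C y z := by
  constructor
  · rintro ⟨h1, h2⟩
    refine ⟨h1, fun c hc => ?_⟩
    obtain ⟨Z, hZ, hH, i, hi, rfl⟩ := (h.entC c).1 hc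
    exact h2 Z hZ hH i hi
  · rintro ⟨h1, h2⟩
    refine ⟨h1, fun Z hZ hH i hi => h2 _ ((h.entC _).2 ⟨Z, hZ, hH, i, hi, rfl⟩)⟩

theorem secU {M U C : Set (Set ℕ)} (h : Univ M U C) {Z : Set ℕ} (hZ : Z ∈ U) (n : ℕ) :
    sec Z n ∈ U := by
  obtain ⟨c, hc, hZc⟩ := h.uSs Z hZ
  refine h.ssU c hc ?_
  exact AS.closed (AS.sec (AS.var 0) (AN.const n)) (h.ssAr c hc) (fun _ => 0) (fun _ => Z)
    fun _ => hZc

/-- the real with the sections `A`, `B`, `W` -/
def j3 (A B W : Set ℕ) : Set ℕ :=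
  {x | (x.unpair.1 = 0 ∧ x.unpair.2 ∈ A) ∨ (x.unpair.1 = 1 ∧ x.unpair.2 ∈ B) ∨
    (x.unpair.1 = 2 ∧ x.unpair.2 ∈ W)}

theorem as_j3 : AS (fun _ V => j3 (V 0) (V 1) (V 2)) := by
  unfold j3
  aesop (config := { enableSimp := false })

theorem j3_mem {K : Set (Set ℕ)} (hK : ArClosed K) {A B W : Set ℕ} (hA : A ∈ K) (hB : B ∈ K)
    (hW : W ∈ K) : j3 A B W ∈ K := by
  refine as_j3.closed hK (fun _ => 0) (sc A (sc B fun _ => W)) ?_
  intro i
  rcases i with _ | _ | i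
  · exact hA
  · exact hB
  · exact hW

theorem j3_0 (A B W : Set ℕ) : sec (j3 A B W) 0 = A := by
  ext m
  simp [sec, j3]

theorem j3_1 (A B W : Set ℕ) : sec (j3 A B W) 1 = B := by
  ext m
  simp [sec, j3]

theorem j3_2 (A B W : Set ℕ) : sec (j3 A B W) 2 = W := by
  ext m
  simp [sec, j3]

theorem gp_nil (G : Cond → Prop) : gp G [] = ∅ := by
  ext k
  simp [gp]

theorem gp_cons (G : Cond → Prop) (a : ℕ) (s : Node) : gp G (a :: s) = gen G s := by
  ext k
  simp [gp]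

end S8_Tot

open S8_Tot in
theorem tTot : S_Tot := by
  intro M U C G h X hX
  have hemp : (∅ : Set ℕ) ∈ NN (SU U C) G := by
    refine AS.closed AS.empty h.arc (fun _ => 0) (fun _ => X) fun _ => hX
  by_cases hc : Crt C (sec X 0) (sec X 1)
  · obtain ⟨T, hT, hXT⟩ := h.sup X hX
    obtain ⟨s, hs, h1, h2⟩ := h.unq T hT _ (h.supS T hT X hXT 0) _ (h.supS T hT X hXT 1) hc
    refine ⟨j3 (gen G s) (gen G (0 :: s)) ∅, j3_mem h.arc (h.genN _) (h.genN _) hemp, ?_, Or.inl ?_⟩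
    · rw [j3_0, j3_1, crt_iff h]
      have := h.edge (0 :: s)
      rw [gp_cons] at this
      exact this
    · rw [j3_0, h1]
  · have key : (sec X 1).Finite ∨ ∃ W ∈ NN (SU U C) G, WitK (NN (SU U C) G) W (sec X 0) (sec X 1) := by
      by_cases hf : (sec X 1).Finite
      · exact Or.inl hf
      · right
        have : ∃ c ∈ C, Vio c (sec X 0) (sec X 1) := by
          by_contra hcon
          push Not at hcon
          exact hc ⟨hf, hcon⟩
        obtain ⟨c, hcC, hv⟩ := this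
        obtain ⟨W, hW, hH, i, hi, rfl⟩ := h.univ.hc c hcC
        refine ⟨W, h.sub hW, ⟨hH.1, ?_⟩, i, hi, hv⟩
        exact h.pres _ (secU h.univ hW 0) fun f hf => hH.2 f (h.univ.um hf)
    have fin : ∀ W ∈ NN (SU U C) G,
        ((sec X 1).Finite ∨ WitK (NN (SU U C) G) W (sec X 0) (sec X 1)) →
        ∃ Y ∈ NN (SU U C) G, PhK (NN (SU U C) G) X Y := by
      intro W hW hWX
      refine ⟨j3 ∅ (gen G []) W, j3_mem h.arc hemp (h.genN _) hW, ?_, Or.inr ?_⟩
      · rw [j3_0, j3_1, crt_iff h]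
        have := h.edge []
        rw [gp_nil] at this
        exact this
      · rw [j3_2]
        exact hWX
    rcases key with hf | ⟨W, hW, hw⟩
    · exact fin ∅ hemp (Or.inl hf)
    · exact fin W hW (Or.inr hw)

end B8d
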